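import Pool.Agent.U623.HF.Lower

/-! # Multiple zeta values of words with a common last part -/

set_option autoImplicit false

open Filter Topology

namespace Pool.Agent.U623.HF

open Pool.Agent.H447R2.MZ

lemma adm_left {x y : List ℕ} (h : Adm (x ++ y)) : Adm x := by
  refine ⟨fun a ha => h.1 a (by simp [ha]), fun a t hx => h.2 a (t ++ y) (by rw [hx]; rfl)⟩

lemma H_zero (s : List ℕ) : ∀ m, m < s.length → H s m = 0 := by
  induction s with
  | nil => intro m hm; simp at hm
  | cons a s ih =>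
    intro m hm
    rw [H_cons]
    refine Finset.sum_eq_zero fun n hn => ?_
    rw [ih n (by rw [List.length_cons] at hm; have := Finset.mem_range.1 hn; omega), mul_zero]

lemma H_pos (s : List ℕ) : ∀ m, s.length ≤ m → 0 < H s m := by
  induction s with
  | nil => intro m _; rw [H_nil]; exact one_pos
  | cons a s ih =>
    intro m hm
    rw [List.length_cons] at hm
    rw [H_cons]
    refine Finset.sum_pos' (fun n _ => mul_nonneg (by positivity) (H_nonneg s n))
      ⟨m - 1, Finset.mem_range.2 (by omega), ?_⟩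
    exact mul_pos (by positivity) (ih (m - 1) (by omega))

lemma base_sum (a : ℕ) (s : List ℕ) (h : Adm (a :: s)) :
    HasSum (fun m : ℕ => (((m + 1 : ℕ) : ℝ) ^ a)⁻¹ * H s m) (val (a :: s)) := by
  rw [hasSum_iff_tendsto_nat_of_nonneg fun m => mul_nonneg (by positivity) (H_nonneg s m)]
  have := tendsto_H (a :: s) h
  refine this.congr fun N => ?_
  rw [H_cons]

/-- the multiple zeta value of a word as a sum over the largest variable of its last part -/
theorem hs_sum : ∀ (w : List ℕ) (a : ℕ) (s : List ℕ), Adm (w.reverse ++ a :: s) →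
    HasSum (fun m : ℕ => T w (m + 1) * ((((m + 1 : ℕ) : ℝ) ^ a)⁻¹ * H s m)) (val (w.reverse ++ a :: s)) := by
  intro w
  induction w with
  | nil =>
    intro a s h
    simp only [List.reverse_nil, List.nil_append] at h ⊢
    simp only [T_nil, one_mul]
    exact base_sum a s h
  | cons b w ih =>
    intro a s h
    have hRA : RA (b :: w) := adm_left h
    have e0 : (b :: w).reverse ++ a :: s = w.reverse ++ b :: (a :: s) := by simp
    rw [e0] at h ⊢
    have h1 := ih b (a :: s) h
    obtain ⟨V, hV⟩ : ∃ V : ℝ, V = val (w.reverse ++ b :: (a :: s)) := ⟨_, rfl⟩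
    rw [← hV] at h1 ⊢
    obtain ⟨f, hf⟩ : ∃ f : ℕ → ℝ, f = fun n => T w (n + 1) * (((n + 1 : ℕ) : ℝ) ^ b)⁻¹ := ⟨_, rfl⟩
    obtain ⟨g, hg⟩ : ∃ g : ℕ → ℝ, g = fun m => (((m + 1 : ℕ) : ℝ) ^ a)⁻¹ * H s m := ⟨_, rfl⟩
    have hf0 : ∀ n, 0 ≤ f n := fun n => by
      rw [hf]
      exact mul_nonneg (T_nonneg (ra_tail hRA) _) (by positivity)
    have hg0 : ∀ n, 0 ≤ g n := fun n => by
      rw [hg]
      exact mul_nonneg (by positivity) (H_nonneg s n)
    obtain ⟨F, hF⟩ : ∃ F : ℕ × ℕ → ℝ, F = fun p => if p.2 < p.1 then f p.1 * g p.2 else 0 := ⟨_, rfl⟩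
    have hgoal : (fun m : ℕ => T (b :: w) (m + 1) * ((((m + 1 : ℕ) : ℝ) ^ a)⁻¹ * H s m)) =
        fun m => T (b :: w) (m + 1) * g m := by
      funext m
      rw [hg]
    rw [hgoal]
    have hF0 : ∀ p, 0 ≤ F p := by
      intro p
      simp only [hF]
      split_ifs
      · exact mul_nonneg (hf0 _) (hg0 _)
      · exact le_rfl
    have r1 : ∀ n, HasSum (fun m => F (n, m)) (f n * H (a :: s) n) := by
      intro n
      have h2 : f n * H (a :: s) n = ∑ m ∈ Finset.range n, F (n, m) := by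
        rw [H_cons, Finset.mul_sum]
        refine Finset.sum_congr rfl fun m hm => ?_
        simp only [hF, hg]
        rw [if_pos (Finset.mem_range.1 hm)]
      rw [h2]
      refine hasSum_sum_of_ne_finset_zero fun m hm => ?_
      simp only [hF]
      rw [if_neg (fun h => hm (Finset.mem_range.2 h))]
    have h1' : HasSum (fun n => f n * H (a :: s) n) V := by
      have e1 : (fun n => f n * H (a :: s) n) =
          fun n => T w (n + 1) * ((((n + 1 : ℕ) : ℝ) ^ b)⁻¹ * H (a :: s) n) := by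
        funext n
        simp only [hf]
        ring
      rw [e1]
      exact h1
    have hFs : Summable F := by
      rw [summable_prod_of_nonneg hF0]
      refine ⟨fun n => (r1 n).summable, ?_⟩
      refine h1'.summable.congr fun n => ?_
      rw [(r1 n).tsum_eq]
    have hFV : HasSum F V := by
      have h2 := hFs.hasSum
      have h3 := h2.prod_fiberwise r1
      rw [h3.unique h1'] at h2
      exact h2
    have hFV' : HasSum (fun p : ℕ × ℕ => F p.swap) V :=
      (Equiv.prodComm ℕ ℕ).hasSum_iff.2 hFV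
    refine hFV'.prod_fiberwise fun m => ?_
    simp only [Prod.swap_prod_mk]
    have r2 : HasSum (fun k => F (k + (m + 1), m)) (T (b :: w) (m + 1) * g m) := by
      have h2 : HasSum (fun k : ℕ => ((((k + (m + 1 + 1) : ℕ) : ℝ) ^ b)⁻¹ * T w (k + (m + 1 + 1))))
          (T (b :: w) (m + 1)) := by
        rw [T_cons]
        exact (f_summable hRA (m + 1)).hasSum
      have h3 := h2.mul_right (g m)
      have e2 : (fun k => F (k + (m + 1), m)) = fun i : ℕ =>
          (((i + (m + 1 + 1) : ℕ) : ℝ) ^ b)⁻¹ * T w (i + (m + 1 + 1)) * g m := by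
        funext k
        simp only [hF, hf]
        have e3 : k + (m + 1) + 1 = k + (m + 1 + 1) := by omega
        rw [if_pos (by omega), e3]
        ring
      rw [e2]
      exact h3
    have h4 : ∑ i ∈ Finset.range (m + 1), F (i, m) = 0 := by
      refine Finset.sum_eq_zero fun i hi => ?_
      simp only [hF]
      rw [if_neg (by have := Finset.mem_range.1 hi; omega)]
    have h5 := (hasSum_nat_add_iff' (f := fun n => F (n, m)) (g := T (b :: w) (m + 1) * g m) (m + 1))
    rw [h4, sub_zero] at h5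
    exact h5.1 r2

/-- **Words with a common last part.** -/
theorem main (U : Finset (List ℕ)) (hU : ∀ u ∈ U, Adm u) : ∃ κ : ℝ, 0 < κ ∧ ∃ J : ℕ, 1 ≤ J ∧
    ∀ (a : ℕ) (s : List ℕ), 1 ≤ a → (∀ x ∈ s, 1 ≤ x) → (∀ u ∈ U, Adm (u ++ a :: s)) →
    ∀ c : List ℕ → ℤ, (∀ u ∈ U, |(c u : ℝ)| ≤ κ * (s.length + 1)) → (∃ u ∈ U, c u ≠ 0) →
      0 < val ((a + J) :: s) ∧
      κ * val ((a + J) :: s) ≤ |∑ u ∈ U, (c u : ℝ) * val (u ++ a :: s)| := by
  classical
  obtain ⟨κ0, hκ0, J, m0, h⟩ := lower (U.image List.reverse) (by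
    intro w hw
    obtain ⟨u, hu, rfl⟩ := Finset.mem_image.1 hw
    unfold RA
    rw [List.reverse_reverse]
    exact hU u hu)
  obtain ⟨κ, hκ⟩ : ∃ κ : ℝ, κ = min κ0 (1 / ((m0 : ℝ) + 1)) := ⟨_, rfl⟩
  have hκp : 0 < κ := by rw [hκ]; exact lt_min hκ0 (by positivity)
  refine ⟨κ, hκp, J + 1, by omega, fun a s ha hs hadm c hc hne => ?_⟩
  have hadm' : Adm ((a + (J + 1)) :: s) := by
    refine ⟨fun x hx => ?_, fun x t hx => ?_⟩
    · rw [List.mem_cons] at hx
      rcases hx with rfl | hx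
      · omega
      · exact hs x hx
    · rw [List.cons.injEq] at hx
      omega
  have hpos : 0 < val ((a + (J + 1)) :: s) :=
    lt_of_lt_of_le (H_pos _ _ le_rfl) (H_le_val _ hadm' _)
  refine ⟨hpos, ?_⟩
  -- the length is large
  have hlen : (m0 : ℝ) + 1 ≤ (s.length : ℝ) + 1 := by
    obtain ⟨u, hu, hcu⟩ := hne
    have h1 := hc u hu
    have h2 : (1 : ℝ) ≤ |(c u : ℝ)| := by exact_mod_cast Int.one_le_abs hcu
    have h3 : κ ≤ 1 / ((m0 : ℝ) + 1) := by rw [hκ]; exact min_le_right _ _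
    have h4 : (1 : ℝ) ≤ 1 / ((m0 : ℝ) + 1) * (s.length + 1) :=
      h2.trans (h1.trans (mul_le_mul_of_nonneg_right h3 (by positivity)))
    rw [div_mul_eq_mul_div, one_mul, le_div_iff₀ (by positivity), one_mul] at h4
    exact h4
  obtain ⟨ε, hε, hb⟩ := h (fun w => c w.reverse) (by
    obtain ⟨u, hu, hcu⟩ := hne
    exact ⟨u.reverse, Finset.mem_image_of_mem _ hu, by rw [List.reverse_reverse]; exact hcu⟩)
  have hb' := hb (κ * (s.length + 1)) (by
    intro w hw
    obtain ⟨u, hu, rfl⟩ := Finset.mem_image.1 hw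
    rw [List.reverse_reverse]
    exact hc u hu)
  have hsum : ∀ m : ℕ, ∑ w ∈ U.image List.reverse, ((c w.reverse : ℤ) : ℝ) * T w m =
      ∑ u ∈ U, (c u : ℝ) * T u.reverse m := by
    intro m
    rw [Finset.sum_image fun x _ y _ hxy => List.reverse_injective hxy]
    refine Finset.sum_congr rfl fun u _ => ?_
    rw [List.reverse_reverse]
  -- the two sums
  obtain ⟨g, hg⟩ : ∃ g : ℕ → ℝ, g = fun m => (((m + 1 : ℕ) : ℝ) ^ a)⁻¹ * H s m := ⟨_, rfl⟩
  have hg0 : ∀ m, 0 ≤ g m := fun m => by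
    rw [hg]
    exact mul_nonneg (by positivity) (H_nonneg s m)
  have hS : HasSum (fun m => ε * ((∑ u ∈ U, (c u : ℝ) * T u.reverse (m + 1)) * g m))
      (ε * ∑ u ∈ U, (c u : ℝ) * val (u ++ a :: s)) := by
    refine HasSum.mul_left ε ?_
    have h1 : ∀ u ∈ U, HasSum (fun m => (c u : ℝ) * (T u.reverse (m + 1) * g m))
        ((c u : ℝ) * val (u ++ a :: s)) := by
      intro u hu
      have h2 := hs_sum u.reverse a s (by rw [List.reverse_reverse]; exact hadm u hu)
      rw [List.reverse_reverse] at h2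
      rw [hg]
      exact h2.mul_left _
    have h3 := hasSum_sum h1
    have h4 : (fun m => ∑ u ∈ U, (c u : ℝ) * (T u.reverse (m + 1) * g m)) =
        fun m => (∑ u ∈ U, (c u : ℝ) * T u.reverse (m + 1)) * g m := by
      funext m
      rw [Finset.sum_mul]
      exact Finset.sum_congr rfl fun u _ => by ring
    rw [h4] at h3
    exact h3
  have hR : HasSum (fun m => κ * (((((m + 1 : ℕ) : ℝ) ^ (a + (J + 1)))⁻¹) * H s m))
      (κ * val ((a + (J + 1)) :: s)) := (base_sum _ s hadm').mul_left κ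
  have hfin : κ * val ((a + (J + 1)) :: s) ≤ ε * ∑ u ∈ U, (c u : ℝ) * val (u ++ a :: s) := by
    refine hasSum_le (fun m => ?_) hR hS
    rcases lt_or_ge m s.length with hm | hm
    · rw [hg]
      simp only
      rw [H_zero s m hm]
      simp
    · have hm1 : (s.length : ℝ) ≤ m := by exact_mod_cast hm
      have h1 := hb' (m + 1) (by
        have : (m0 : ℝ) ≤ ((m + 1 : ℕ) : ℝ) := by push_cast; linarith
        exact_mod_cast this) (by
        push_cast
        have : κ ≤ κ0 := by rw [hκ]; exact min_le_left _ _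
        have h5 : (s.length : ℝ) + 1 ≤ (m : ℝ) + 1 := by linarith
        exact mul_le_mul this h5 (by positivity) hκ0.le)
      rw [hsum] at h1
      have hm2 : (1 : ℝ) ≤ ((m + 1 : ℕ) : ℝ) := by push_cast; have : (0 : ℝ) ≤ m := m.cast_nonneg; linarith
      calc κ * (((((m + 1 : ℕ) : ℝ) ^ (a + (J + 1)))⁻¹) * H s m)
          ≤ κ0 * (((((m + 1 : ℕ) : ℝ) ^ J)⁻¹ * (((m + 1 : ℕ) : ℝ) ^ a)⁻¹) * H s m) := by
            have h6 : (((m + 1 : ℕ) : ℝ) ^ (a + (J + 1)))⁻¹ ≤
                (((m + 1 : ℕ) : ℝ) ^ J)⁻¹ * (((m + 1 : ℕ) : ℝ) ^ a)⁻¹ := by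
              rw [← mul_inv, ← pow_add]
              exact inv_anti₀ (by positivity) (pow_le_pow_right₀ hm2 (by omega))
            have h7 : κ ≤ κ0 := by rw [hκ]; exact min_le_left _ _
            exact mul_le_mul h7 (mul_le_mul_of_nonneg_right h6 (H_nonneg s m))
              (mul_nonneg (by positivity) (H_nonneg s m)) hκ0.le
        _ = (κ0 * (((m + 1 : ℕ) : ℝ) ^ J)⁻¹) * g m := by rw [hg]; ring
        _ ≤ (ε * ∑ u ∈ U, (c u : ℝ) * T u.reverse (m + 1)) * g m :=
            mul_le_mul_of_nonneg_right h1 (hg0 m)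
        _ = _ := by ring
  refine hfin.trans ?_
  rcases hε with rfl | rfl
  · rw [one_mul]; exact le_abs_self _
  · rw [neg_one_mul]; exact neg_le_abs _

end Pool.Agent.U623.HF
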