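import Pool.Agent.U623.HF.MainR
import Pool.Agent.TH456.TM.Inst

/-! # Words with a common last part: coefficients in the span of numbers with a measure -/

set_option autoImplicit false

open Filter Topology

namespace Pool.Agent.U623.HF

open Pool.Agent.H447R2.MZ

/-- a measure of linear independence of polynomial type -/
def LMe {ι : Type} [Fintype ι] (θ : ι → ℝ) : Prop :=
  ∃ κ c : ℝ, 0 ≤ κ ∧ 0 < c ∧ ∀ q : ι → ℤ, q ≠ 0 → ∀ H : ℝ, 1 ≤ H → (∀ i, |(q i : ℝ)| ≤ H) →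
    c ≤ H ^ κ * |∑ i, (q i : ℝ) * θ i|

lemma den_common (J : ℕ) (U : Finset (List ℕ)) (q : ℕ → List ℕ → ℚ) : ∃ D : ℕ, 1 ≤ D ∧
    ∀ j < J, ∀ u ∈ U, ∃ z : ℤ, (D : ℚ) * q j u = z := by
  classical
  refine ⟨∏ j ∈ Finset.range J, ∏ u ∈ U, (q j u).den, ?_, ?_⟩
  · exact Nat.one_le_iff_ne_zero.2 (Finset.prod_ne_zero_iff.2 fun w _ =>
      Finset.prod_ne_zero_iff.2 fun i _ => Rat.den_nz _)
  · intro j hj u hu
    have h1 : (q j u).den ∣ ∏ j ∈ Finset.range J, ∏ u ∈ U, (q j u).den :=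
      (Finset.dvd_prod_of_mem (fun u => (q j u).den) hu).trans
        (Finset.dvd_prod_of_mem (fun j => ∏ u ∈ U, (q j u).den) (Finset.mem_range.2 hj))
    obtain ⟨k, hk⟩ := h1
    refine ⟨k * (q j u).num, ?_⟩
    rw [hk]
    push_cast
    have h2 : ((q j u).den : ℚ) * q j u = (q j u).num := by
      rw [mul_comm]
      exact Rat.mul_den_eq_num _
    calc ((q j u).den : ℚ) * (k : ℚ) * q j u
        = k * (((q j u).den : ℚ) * q j u) := by ring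
      _ = _ := by rw [h2]

theorem measR {ι : Type} [Fintype ι] (θ : ι → ℝ) (hθ : LMe θ) (U : Finset (List ℕ))
    (hU : ∀ u ∈ U, Adm u) :
    ∃ κ E : ℝ, 0 < κ ∧ 1 ≤ E ∧ ∃ J : ℕ, 1 ≤ J ∧ ∀ (a : ℕ) (s : List ℕ), 1 ≤ a → (∀ x ∈ s, 1 ≤ x) →
      (∀ u ∈ U, Adm (u ++ a :: s)) → ∀ (c : List ℕ → ι → ℤ) (h : ℝ), 1 ≤ h →
      (∀ u ∈ U, ∀ i, |(c u i : ℝ)| ≤ h) → (∃ u ∈ U, ∃ i, c u i ≠ 0) →
      h ^ E ≤ κ * (s.length + 1) →
        0 < val ((a + J) :: s) ∧ κ * h ^ (-E) * val ((a + J) :: s) ≤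
          |∑ u ∈ U, (∑ i, (c u i : ℝ) * θ i) * val (u ++ a :: s)| := by
  classical
  obtain ⟨q, K, J, hK, hmain⟩ := mainR U hU
  obtain ⟨κ0, c0, hκ0, hc0, hm⟩ := hθ
  obtain ⟨D, hD1, hD⟩ := den_common J U q
  have hz : ∀ j u, ∃ z : ℤ, j < J → u ∈ U → (D : ℚ) * q j u = z := by
    intro j u
    by_cases h : j < J ∧ u ∈ U
    · obtain ⟨z, hz⟩ := hD j h.1 u h.2
      exact ⟨z, fun _ _ => hz⟩
    · exact ⟨0, fun h1 h2 => absurd ⟨h1, h2⟩ h⟩
  choose z hz using hz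
  obtain ⟨B, hB⟩ : ∃ B : ℝ, B = 1 + ∑ j ∈ Finset.range J, ∑ u ∈ U, |(z j u : ℝ)| := ⟨_, rfl⟩
  have hB1 : 1 ≤ B := by
    rw [hB]
    have : 0 ≤ ∑ j ∈ Finset.range J, ∑ u ∈ U, |(z j u : ℝ)| :=
      Finset.sum_nonneg fun _ _ => Finset.sum_nonneg fun _ _ => abs_nonneg _
    linarith
  obtain ⟨Θ, hΘ⟩ : ∃ Θ : ℝ, Θ = 1 + ∑ i, |θ i| := ⟨_, rfl⟩
  have hΘ1 : 1 ≤ Θ := by
    rw [hΘ]
    have : 0 ≤ ∑ i, |θ i| := Finset.sum_nonneg fun _ _ => abs_nonneg _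
    linarith
  have hD0 : (0 : ℝ) < D := by exact_mod_cast hD1
  have hBκ : 0 < B ^ κ0 := Real.rpow_pos_of_pos (by linarith) _
  obtain ⟨κ, hκ⟩ : ∃ κ : ℝ, κ = min (c0 / (K * Θ * D * B ^ κ0)) (c0 / (2 * D * B ^ κ0)) := ⟨_, rfl⟩
  have hκp : 0 < κ := by rw [hκ]; exact lt_min (by positivity) (by positivity)
  refine ⟨κ, 1 + κ0, hκp, by linarith, J + 1, by omega,
    fun a s ha hs hadm c h hh hc hne hlen => ?_⟩
  have hh0 : 0 < h := by linarith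
  obtain ⟨c', hc'⟩ : ∃ c' : List ℕ → ℝ, c' = fun u => ∑ i, (c u i : ℝ) * θ i := ⟨_, rfl⟩
  have hc'u : ∀ u, c' u = ∑ i, (c u i : ℝ) * θ i := fun u => by rw [hc']
  have hne' : ∃ u ∈ U, c' u ≠ 0 := by
    obtain ⟨u, hu, i, hi⟩ := hne
    refine ⟨u, hu, fun h0 => ?_⟩
    have h1 := hm (c u) (fun h2 => hi (by rw [h2]; rfl)) h hh (hc u hu)
    rw [← hc'u, h0, abs_zero, mul_zero] at h1
    linarith
  obtain ⟨j, hjJ, hj0, hfin⟩ := hmain c' hne'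
  obtain ⟨A, hA⟩ : ∃ A : ℝ, A = ∑ u ∈ U, c' u * (q j u : ℝ) := ⟨_, rfl⟩
  rw [← hA] at hj0 hfin
  -- the integer combination
  obtain ⟨Z, hZ⟩ : ∃ Z : ι → ℤ, Z = fun i => ∑ u ∈ U, c u i * z j u := ⟨_, rfl⟩
  have hZA : ∑ i, (Z i : ℝ) * θ i = D * A := by
    rw [hA, Finset.mul_sum]
    have h1 : ∀ i, (Z i : ℝ) * θ i = ∑ u ∈ U, (c u i : ℝ) * (z j u : ℝ) * θ i := by
      intro i
      rw [hZ]
      push_cast
      rw [Finset.sum_mul]
    simp only [h1]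
    rw [Finset.sum_comm]
    refine Finset.sum_congr rfl fun u hu => ?_
    have h2 : (D : ℝ) * (q j u : ℝ) = z j u := by exact_mod_cast hz j u hjJ hu
    rw [hc'u]
    calc ∑ i, (c u i : ℝ) * (z j u : ℝ) * θ i = (z j u : ℝ) * ∑ i, (c u i : ℝ) * θ i := by
          rw [Finset.mul_sum]
          exact Finset.sum_congr rfl fun i _ => by ring
      _ = _ := by rw [← h2]; ring
  have hZ0 : Z ≠ 0 := by
    intro h0
    rw [h0] at hZA
    simp only [Pi.zero_apply, Int.cast_zero, zero_mul, Finset.sum_const_zero] at hZA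
    rcases mul_eq_zero.1 hZA.symm with h1 | h1
    · exact hD0.ne' h1
    · exact hj0 h1
  have hZB : ∀ i, |(Z i : ℝ)| ≤ h * B := by
    intro i
    rw [hZ]
    push_cast
    calc |∑ u ∈ U, (c u i : ℝ) * (z j u : ℝ)| ≤ ∑ u ∈ U, |(c u i : ℝ) * (z j u : ℝ)| :=
          Finset.abs_sum_le_sum_abs _ _
      _ ≤ ∑ u ∈ U, h * |(z j u : ℝ)| := by
          refine Finset.sum_le_sum fun u hu => ?_
          rw [abs_mul]
          exact mul_le_mul_of_nonneg_right (hc u hu i) (abs_nonneg _)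
      _ = h * ∑ u ∈ U, |(z j u : ℝ)| := by rw [Finset.mul_sum]
      _ ≤ h * B := by
          refine mul_le_mul_of_nonneg_left ?_ hh0.le
          rw [hB]
          have := Finset.single_le_sum (f := fun j => ∑ u ∈ U, |(z j u : ℝ)|)
            (fun _ _ => Finset.sum_nonneg fun _ _ => abs_nonneg _) (Finset.mem_range.2 hjJ)
          linarith
  have hA1 : c0 ≤ (h * B) ^ κ0 * (D * |A|) := by
    have h1 := hm Z hZ0 (h * B) (by nlinarith) hZB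
    rw [hZA, abs_mul, abs_of_pos hD0] at h1
    exact h1
  rw [Real.mul_rpow hh0.le (by linarith)] at hA1
  have hhκ : 0 < h ^ κ0 := Real.rpow_pos_of_pos hh0 _
  have hhE : h ^ (1 + κ0) = h * h ^ κ0 := by rw [Real.rpow_add hh0, Real.rpow_one]
  have hL0 : (0 : ℝ) < (s.length : ℝ) + 1 := by positivity
  have hb1 : K * (h * Θ) ≤ |A| * (s.length + 1) := by
    have h1 : h * h ^ κ0 ≤ c0 / (K * Θ * D * B ^ κ0) * (s.length + 1) := by
      rw [← hhE]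
      refine hlen.trans (mul_le_mul_of_nonneg_right ?_ hL0.le)
      rw [hκ]
      exact min_le_left _ _
    rw [div_mul_eq_mul_div, le_div_iff₀ (by positivity)] at h1
    have h2 : c0 * (s.length + 1) ≤ h ^ κ0 * B ^ κ0 * (D * |A|) * (s.length + 1) :=
      mul_le_mul_of_nonneg_right hA1 hL0.le
    have h3 : (h ^ κ0 * B ^ κ0 * D) * (K * (h * Θ)) ≤ (h ^ κ0 * B ^ κ0 * D) * (|A| * (s.length + 1)) := by
      calc (h ^ κ0 * B ^ κ0 * D) * (K * (h * Θ)) = h * h ^ κ0 * (K * Θ * D * B ^ κ0) := by ring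
        _ ≤ c0 * (s.length + 1) := h1
        _ ≤ _ := h2
        _ = _ := by ring
    exact le_of_mul_le_mul_left h3 (by positivity)
  obtain ⟨hp, hlow⟩ := hfin (h * Θ) (by
    intro u hu
    rw [hc'u]
    calc |∑ i, (c u i : ℝ) * θ i| ≤ ∑ i, |(c u i : ℝ) * θ i| := Finset.abs_sum_le_sum_abs _ _
      _ ≤ ∑ i, h * |θ i| := by
          refine Finset.sum_le_sum fun i _ => ?_
          rw [abs_mul]
          exact mul_le_mul_of_nonneg_right (hc u hu i) (abs_nonneg _)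
      _ = h * ∑ i, |θ i| := by rw [Finset.mul_sum]
      _ ≤ h * Θ := by
          refine mul_le_mul_of_nonneg_left ?_ hh0.le
          rw [hΘ]
          linarith) a s ha hs hadm hb1
  refine ⟨hp, ?_⟩
  have e1 : ∑ u ∈ U, (∑ i, (c u i : ℝ) * θ i) * val (u ++ a :: s) =
      ∑ u ∈ U, c' u * val (u ++ a :: s) := Finset.sum_congr rfl fun u _ => by rw [hc'u]
  rw [e1]
  refine le_trans (mul_le_mul_of_nonneg_right ?_ hp.le) hlow
  rw [Real.rpow_neg hh0.le, hhE]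
  have h5 : κ ≤ c0 / (2 * D * B ^ κ0) := by rw [hκ]; exact min_le_right _ _
  have h6 : c0 / (2 * D * B ^ κ0) ≤ |A| / 2 * h ^ κ0 := by
    rw [div_le_iff₀ (by positivity)]
    calc c0 ≤ _ := hA1
      _ = _ := by ring
  have h7 : (h * h ^ κ0)⁻¹ ≤ (h ^ κ0)⁻¹ := by
    apply inv_anti₀ hhκ
    nlinarith
  calc κ * (h * h ^ κ0)⁻¹ ≤ (|A| / 2 * h ^ κ0) * (h ^ κ0)⁻¹ :=
        mul_le_mul (h5.trans h6) h7 (by positivity) (by positivity)
    _ = |A| / 2 := by field_simp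

/-- real coefficients, qualitative form -/
theorem realR (U : Finset (List ℕ)) (hU : ∀ u ∈ U, Adm u) (c : List ℕ → ℝ) (hc : ∃ u ∈ U, c u ≠ 0) :
    ∃ n0 : ℕ, ∀ (a : ℕ) (s : List ℕ), 1 ≤ a → (∀ x ∈ s, 1 ≤ x) → (∀ u ∈ U, Adm (u ++ a :: s)) →
      n0 ≤ s.length + 1 → ∑ u ∈ U, c u * val (u ++ a :: s) ≠ 0 := by
  classical
  obtain ⟨q, K, J, hK, hmain⟩ := mainR U hU
  obtain ⟨j, hjJ, hj0, hfin⟩ := hmain c hc
  obtain ⟨A, hA⟩ : ∃ A : ℝ, A = ∑ u ∈ U, c u * (q j u : ℝ) := ⟨_, rfl⟩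
  rw [← hA] at hj0 hfin
  have hA0 : 0 < |A| := abs_pos.2 hj0
  obtain ⟨H, hH⟩ : ∃ H : ℝ, ∀ u ∈ U, |c u| ≤ H :=
    ⟨∑ u ∈ U, |c u|, fun u hu => Finset.single_le_sum (f := fun u => |c u|) (fun _ _ => abs_nonneg _) hu⟩
  obtain ⟨n0, hn0⟩ := exists_nat_ge (K * H / |A|)
  refine ⟨n0, fun a s ha hs hadm hlen h0 => ?_⟩
  obtain ⟨h1, h2⟩ := hfin H hH a s ha hs hadm (by
    rw [div_le_iff₀ hA0] at hn0
    have h3 : (n0 : ℝ) ≤ (s.length : ℝ) + 1 := by exact_mod_cast hlen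
    calc K * H ≤ n0 * |A| := hn0
      _ ≤ ((s.length : ℝ) + 1) * |A| := mul_le_mul_of_nonneg_right h3 hA0.le
      _ = _ := mul_comm _ _)
  rw [h0, abs_zero] at h2
  have : 0 < |A| / 2 * val ((a + (J + 1)) :: s) := by positivity
  linarith

open Pool.Agent.TH456.TM in
/-- powers of `π ^ 2` -/
lemma LMe_pi (D : ℕ) : LMe fun i : Fin (D + 1) => (Real.pi ^ 2) ^ (i : ℕ) := by
  obtain ⟨κ, c, hκ, hc, hmeas⟩ := measT_pi (2 * D)
  refine ⟨κ, c, hκ, hc, fun q hq H hH hqH => ?_⟩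
  obtain ⟨Q, hQ⟩ : ∃ Q : Polynomial ℤ,
      Q = ∑ i : Fin (D + 1), Polynomial.C (q i) * Polynomial.X ^ (2 * (i : ℕ)) := ⟨_, rfl⟩
  have hcoef : ∀ k, Q.coeff k = if h : ∃ i : Fin (D + 1), k = 2 * (i : ℕ) then q h.choose else 0 := by
    intro k
    rw [hQ]
    simp only [Polynomial.finsetSum_coeff, Polynomial.coeff_C_mul, Polynomial.coeff_X_pow]
    by_cases h : ∃ i : Fin (D + 1), k = 2 * (i : ℕ)
    · rw [dif_pos h, Finset.sum_eq_single h.choose]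
      · rw [if_pos h.choose_spec, mul_one]
      · intro b _ hb
        rw [if_neg (fun h2 => hb (Fin.ext (by have := h.choose_spec; omega))), mul_zero]
      · intro h2
        exact absurd (Finset.mem_univ _) h2
    · rw [dif_neg h]
      refine Finset.sum_eq_zero fun i _ => ?_
      rw [if_neg (fun h2 => h ⟨i, h2⟩), mul_zero]
  have hcoef2 : ∀ i : Fin (D + 1), Q.coeff (2 * (i : ℕ)) = q i := by
    intro i
    have h : ∃ i' : Fin (D + 1), 2 * (i : ℕ) = 2 * (i' : ℕ) := ⟨i, rfl⟩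
    rw [hcoef, dif_pos h]
    congr 1
    exact Fin.ext (by have := h.choose_spec; omega)
  have h1 := hmeas Q (fun h => hq (by
    funext i
    rw [← hcoef2, h, Polynomial.coeff_zero]
    rfl)) (by
    rw [Polynomial.natDegree_le_iff_coeff_eq_zero]
    intro k hk
    rw [hcoef k, dif_neg]
    rintro ⟨i, hi⟩
    have := i.2
    omega) H hH (fun k => by
    rw [hcoef k]
    split_ifs with h
    · exact hqH _
    · simp only [Int.cast_zero, abs_zero]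
      linarith only [hH])
  have h2 : Polynomial.aeval (Real.pi : ℂ) Q =
      ((∑ i, (q i : ℝ) * (Real.pi ^ 2) ^ (i : ℕ) : ℝ) : ℂ) := by
    rw [hQ, map_sum]
    push_cast
    refine Finset.sum_congr rfl fun i _ => ?_
    rw [map_mul, map_pow, Polynomial.aeval_X, Polynomial.aeval_C, pow_mul]
    rfl
  rwa [h2, Complex.norm_real, Real.norm_eq_abs] at h1

end Pool.Agent.U623.HF
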