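import Pool.Agent.U623.HF.Tail
import Pool.Agent.U623.HF.Pole

/-! # The tails are linearly independent over the rational functions, also up to functions which
decrease faster than all powers -/

set_option autoImplicit false

open Filter Topology Polynomial Asymptotics

namespace Pool.Agent.U623.HF

open Pool.Agent.H447R2.MZ

/-- decreases faster than every power -/
def Negl (f : ℕ → ℝ) : Prop := ∀ J : ℕ, f =O[atTop] (fun m : ℕ => ((m : ℝ) ^ J)⁻¹)

lemma poly_O (P : ℝ[X]) : (fun m : ℕ => P.eval (m : ℝ)) =O[atTop] (fun m : ℕ => (m : ℝ) ^ P.natDegree) := by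
  have h1 : (fun x : ℝ => P.eval x) =O[atTop] (fun x : ℝ => ((X : ℝ[X]) ^ P.natDegree).eval x) := by
    apply Polynomial.isBigO_atTop_of_degree_le
    rw [degree_X_pow]
    exact degree_le_natDegree
  have h2 := h1.comp_tendsto tendsto_natCast_atTop_atTop
  simpa [Function.comp_def] using h2

lemma negl_sub {f g : ℕ → ℝ} (hf : Negl f) (hg : Negl g) : Negl (fun m => f m - g m) :=
  fun J => (hf J).sub (hg J)

lemma negl_congr {f g : ℕ → ℝ} (hf : Negl f) (h : ∀ᶠ m in atTop, f m = g m) : Negl g :=
  fun J => (hf J).congr' h (EventuallyEq.refl _ _)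

lemma negl_poly_mul (P : ℝ[X]) {f : ℕ → ℝ} (hf : Negl f) : Negl (fun m => P.eval (m : ℝ) * f m) := by
  intro J
  have h1 := (poly_O P).mul (hf (J + P.natDegree))
  refine h1.congr' (EventuallyEq.refl _ _) ?_
  filter_upwards [eventually_gt_atTop 0] with m hm
  have hm0 : (m : ℝ) ≠ 0 := by exact_mod_cast hm.ne'
  rw [pow_add]
  field_simp

lemma negl_prev {f : ℕ → ℝ} (hf : Negl f) : Negl (fun m => f (m - 1)) := by
  intro J
  have h1 := (hf J).comp_tendsto (tendsto_sub_atTop_nat 1)
  refine h1.trans ?_
  refine IsBigO.of_bound (2 ^ J) ?_
  filter_upwards [eventually_ge_atTop 2] with m hm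
  simp only [Function.comp_apply]
  have hm1 : (((m - 1 : ℕ) : ℝ)) = (m : ℝ) - 1 := by
    rw [Nat.cast_sub (by omega)]
    simp
  have hm2 : (2 : ℝ) ≤ m := by exact_mod_cast hm
  rw [hm1, Real.norm_of_nonneg (inv_nonneg.2 (pow_nonneg (by linarith) _)), Real.norm_of_nonneg
    (by positivity), ← div_eq_mul_inv, inv_eq_one_div, div_le_div_iff₀ (pow_pos (by linarith) _)
    (by positivity), one_mul, ← mul_pow]
  exact pow_le_pow_left₀ (by linarith) (by linarith) _

lemma negl_poly {P : ℝ[X]} (h : Negl (fun m => P.eval (m : ℝ))) : P = 0 := by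
  have h1 : Tendsto (fun m : ℕ => P.eval (m : ℝ)) atTop (𝓝 0) := by
    have h2 : Tendsto (fun m : ℕ => ((m : ℝ) ^ 1)⁻¹) atTop (𝓝 0) := by
      simp only [pow_one]
      exact tendsto_inv_atTop_nhds_zero_nat
    exact (h 1).trans_tendsto h2
  by_cases hd : 0 < P.degree
  · exfalso
    have h3 := (P.abs_tendsto_atTop hd).comp (tendsto_natCast_atTop_atTop (R := ℝ))
    have h4 : Tendsto (fun m : ℕ => |P.eval (m : ℝ)|) atTop (𝓝 |0|) := h1.abs
    exact not_tendsto_nhds_of_tendsto_atTop h3 _ h4
  · have h5 := eq_C_of_degree_le_zero (not_lt.1 hd)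
    rw [h5] at h1
    simp only [eval_C] at h1
    have h6 := tendsto_nhds_unique h1 tendsto_const_nhds
    rw [h5, ← h6]
    simp

lemma periodic {P R : ℝ[X]} (hR : R ≠ 0) (h : R * sh P = sh R * P) : ∃ c : ℝ, P = C c * R := by
  obtain ⟨K, hK⟩ := root_bound R hR
  have hK' : ∀ j : ℕ, R.eval ((K : ℝ) + j) ≠ 0 := by
    intro j
    have := hK (K + j) (by omega)
    exact_mod_cast this
  refine ⟨P.eval (K : ℝ) / R.eval (K : ℝ), ?_⟩
  have hK0 : R.eval (K : ℝ) ≠ 0 := by simpa using hK' 0
  have key : ∀ j : ℕ, P.eval ((K : ℝ) + j) = P.eval (K : ℝ) / R.eval (K : ℝ) * R.eval ((K : ℝ) + j) := by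
    intro j
    induction j with
    | zero =>
      simp only [Nat.cast_zero, add_zero]
      field_simp
    | succ j ih =>
      have h1 := congrArg (fun Q => Q.eval ((K : ℝ) + ((j + 1 : ℕ) : ℝ))) h
      simp only [eval_mul, sh_eval] at h1
      have e : (K : ℝ) + ((j + 1 : ℕ) : ℝ) - 1 = (K : ℝ) + j := by push_cast; ring
      rw [e, ih] at h1
      apply mul_left_cancel₀ (hK' j)
      rw [← h1]
      ring
  refine eq_of_infinite_eval_eq _ _ ?_
  refine Set.infinite_of_injective_forall_mem (f := fun j : ℕ => (K : ℝ) + j) ?_ ?_
  · intro i j hij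
    simpa using hij
  · intro j
    simp only [Set.mem_ofPred_eq, eval_mul, eval_C]
    exact key j

/-- the value of a combination -/
noncomputable def rel (W : Finset (List ℕ)) (P : List ℕ → ℝ[X]) (n : ℕ) : ℝ :=
  ∑ w ∈ W, (P w).eval (n : ℝ) * T w n

/-- the coefficients after the elimination of the word `w0` -/
noncomputable def nextP (M : ℕ) (W : Finset (List ℕ)) (P : List ℕ → ℝ[X]) (w0 v : List ℕ) : ℝ[X] :=
  X ^ M * (P w0 * sh (P v) - sh (P w0) * P v) +
    ∑ w ∈ W, if w ≠ [] ∧ w.tail = v then X ^ (M - w.headI) * (P w0 * sh (P w)) else 0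

lemma step {M : ℕ} {W : Finset (List ℕ)} {P : List ℕ → ℝ[X]} (w0 : List ℕ) (hP : ∀ v, v ∉ W → P v = 0)
    (hRA : ∀ w ∈ W, RA w) (hM : ∀ w ∈ W, ∀ a ∈ w, a ≤ M) {n : ℕ} (hn : 1 ≤ n) :
    rel (W ∪ W.image List.tail) (nextP M W P w0) n =
      (n : ℝ) ^ M * ((P w0).eval (n : ℝ) * rel W P (n - 1) - (sh (P w0)).eval (n : ℝ) * rel W P n) := by
  classical
  have hn0 : (n : ℝ) ≠ 0 := by exact_mod_cast (by omega : n ≠ 0)
  have hn1 : (((n - 1 : ℕ) : ℝ)) = (n : ℝ) - 1 := by
    rw [Nat.cast_sub hn]
    simp
  -- split
  have e1 : rel (W ∪ W.image List.tail) (nextP M W P w0) n =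
      (∑ v ∈ W, (X ^ M * (P w0 * sh (P v) - sh (P w0) * P v)).eval (n : ℝ) * T v n) +
      ∑ w ∈ W, if w ≠ [] then (X ^ (M - w.headI) * (P w0 * sh (P w))).eval (n : ℝ) * T w.tail n
        else 0 := by
    unfold rel nextP
    simp only [eval_add, add_mul, Finset.sum_add_distrib]
    congr 1
    · symm
      apply Finset.sum_subset Finset.subset_union_left
      intro v _ hv
      rw [hP v hv, sh_zero]
      simp
    · simp only [eval_finsetSum, Finset.sum_mul]
      rw [Finset.sum_comm]
      refine Finset.sum_congr rfl fun w hw => ?_
      by_cases hw0 : w = []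
      · simp [hw0]
      · rw [if_pos hw0]
        rw [Finset.sum_eq_single w.tail]
        · rw [if_pos ⟨hw0, rfl⟩]
        · intro v _ hv
          rw [if_neg (fun h => hv h.2.symm)]
          simp
        · intro h
          exact absurd (Finset.mem_union_right _ (Finset.mem_image_of_mem _ hw)) h
  rw [e1, ← Finset.sum_add_distrib]
  unfold rel
  rw [Finset.mul_sum, Finset.mul_sum, ← Finset.sum_sub_distrib, Finset.mul_sum]
  refine Finset.sum_congr rfl fun w hw => ?_
  cases w with
  | nil =>
    simp only [ne_eq, not_true_eq_false, if_false, add_zero, T_nil, mul_one, eval_mul, eval_pow,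
      eval_X, eval_sub, sh_eval, hn1]
  | cons a v =>
    have ha : a ≤ M := hM _ hw a (by simp)
    have hT := T_succ (hRA _ hw) (n - 1)
    rw [Nat.sub_add_cancel hn] at hT
    have hpow : (n : ℝ) ^ (M - a) = (n : ℝ) ^ M * ((n : ℝ) ^ a)⁻¹ := by
      rw [pow_sub₀ _ hn0 ha]
    simp only [ne_eq, reduceCtorEq, not_false_eq_true, if_true, List.tail_cons, List.headI_cons,
      eval_mul, eval_pow, eval_X, eval_sub, sh_eval, hn1, hT, hpow]
    ring

/-- **Independence**, the induction. -/
theorem indep_aux (d : ℕ) : ∀ n : ℕ, ∀ (W : Finset (List ℕ)) (P : List ℕ → ℝ[X]),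
    (∀ v, v ∉ W → P v = 0) → (∀ w ∈ W, RA w) → (∀ w, P w ≠ 0 → w.length ≤ d) →
    (∀ S : Finset (List ℕ), (∀ w ∈ S, w ∈ W ∧ P w ≠ 0 ∧ w.length = d) → S.card ≤ n) →
    Negl (rel W P) → ∀ w, P w = 0 := by
  classical
  induction d with
  | zero =>
    intro n W P hP _ hd _ hN w
    by_contra hw
    have hw0 : w = [] := List.length_eq_zero_iff.1 (Nat.le_zero.1 (hd w hw))
    have hW : ([] : List ℕ) ∈ W := by
      by_contra hc
      exact hw (by rw [hw0]; exact hP _ hc)
    apply hw
    rw [hw0]
    apply negl_poly
    refine negl_congr hN (Eventually.of_forall fun m => ?_)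
    unfold rel
    rw [Finset.sum_eq_single ([] : List ℕ)]
    · rw [T_nil, mul_one]
    · intro v _ hv
      have : P v = 0 := by
        by_contra hc
        exact hv (List.length_eq_zero_iff.1 (Nat.le_zero.1 (hd v hc)))
      rw [this]
      simp
    · intro h
      exact absurd hW h
  | succ d ihd =>
    intro n
    induction n with
    | zero =>
      intro W P hP hRA hd hS hN
      refine ihd W.card W P hP hRA (fun w hw => ?_) (fun S hS' => Finset.card_le_card
        fun w hw => (hS' w hw).1) hN
      have hwW : w ∈ W := by
        by_contra hc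
        exact hw (hP _ hc)
      have h1 := hd w hw
      by_contra hlt
      have h2 := hS {w} (fun v hv => by
        rw [Finset.mem_singleton] at hv
        subst hv
        exact ⟨hwW, hw, by omega⟩)
      simp at h2
    | succ n ihn =>
      intro W P hP hRA hd hS hN
      by_cases hex : ∃ w0, P w0 ≠ 0 ∧ w0.length = d + 1
      swap
      · push Not at hex
        refine ihd W.card W P hP hRA (fun w hw => ?_) (fun S hS' => Finset.card_le_card
          fun w hw => (hS' w hw).1) hN
        have h1 := hd w hw
        have h2 := hex w hw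
        omega
      exfalso
      obtain ⟨w0, hw0, hl0⟩ := hex
      have hw0W : w0 ∈ W := by
        by_contra hc
        exact hw0 (hP _ hc)
      obtain ⟨M, hM⟩ : ∃ M : ℕ, ∀ w ∈ W, ∀ a ∈ w, a ≤ M := by
        refine ⟨W.sup List.sum, fun w hw a ha => ?_⟩
        exact (List.single_le_sum (fun _ _ => Nat.zero_le _) a ha).trans
          (Finset.le_sup (f := List.sum) hw)
      -- the second part of the new coefficients
      have hsec : ∀ v : List ℕ, d + 1 ≤ v.length →
          (∑ w ∈ W, if w ≠ [] ∧ w.tail = v then X ^ (M - w.headI) * (P w0 * sh (P w)) else 0)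
            = (0 : ℝ[X]) := by
        intro v hv
        refine Finset.sum_eq_zero fun w _ => ?_
        split_ifs with h
        · have : P w = 0 := by
            by_contra hc
            have h1 := hd w hc
            have h2 : w.tail.length = w.length - 1 := List.length_tail
            have h3 : 0 < w.length := List.length_pos_iff.2 h.1
            rw [h.2] at h2
            omega
          rw [this, sh_zero, mul_zero, mul_zero]
        · rfl
      have hQ : ∀ v, nextP M W P w0 v = 0 := by
        refine ihn (W ∪ W.image List.tail) (nextP M W P w0) ?_ ?_ ?_ ?_ ?_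
        · intro v hv
          rw [Finset.mem_union, not_or] at hv
          unfold nextP
          rw [hP v hv.1, sh_zero, mul_zero, mul_zero, sub_zero, mul_zero, zero_add]
          refine Finset.sum_eq_zero fun w hw => ?_
          rw [if_neg]
          rintro ⟨-, h⟩
          exact hv.2 (h ▸ Finset.mem_image_of_mem _ hw)
        · intro w hw
          rw [Finset.mem_union, Finset.mem_image] at hw
          rcases hw with hw | ⟨v, hv, rfl⟩
          · exact hRA w hw
          · exact ra_tail' (hRA v hv)
        · intro v hv
          by_contra hlt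
          push Not at hlt
          apply hv
          unfold nextP
          rw [hsec v (by omega)]
          have : P v = 0 := by
            by_contra hc
            have := hd v hc
            omega
          rw [this, sh_zero]
          ring
        · intro S hS'
          have hw0S : w0 ∉ S := by
            intro h
            apply (hS' w0 h).2.1
            unfold nextP
            rw [hsec w0 (by omega)]
            ring
          have h1 := hS (insert w0 S) (by
            intro w hw
            rw [Finset.mem_insert] at hw
            rcases hw with rfl | hw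
            · exact ⟨hw0W, hw0, hl0⟩
            · obtain ⟨-, h2, h3⟩ := hS' w hw
              have h4 : P w ≠ 0 := by
                intro hc
                apply h2
                unfold nextP
                rw [hsec w (by omega), hc, sh_zero]
                ring
              refine ⟨?_, h4, h3⟩
              by_contra hc
              exact h4 (hP _ hc))
          rw [Finset.card_insert_of_notMem hw0S] at h1
          omega
        · have h1 : Negl (fun m => ((X : ℝ[X]) ^ M).eval (m : ℝ) * ((P w0).eval (m : ℝ) * rel W P (m - 1) -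
              (sh (P w0)).eval (m : ℝ) * rel W P m)) :=
            negl_poly_mul _ (negl_sub (negl_poly_mul _ (negl_prev hN)) (negl_poly_mul _ hN))
          refine negl_congr h1 ?_
          filter_upwards [eventually_ge_atTop 1] with m hm
          rw [step w0 hP hRA hM hm]
          simp
      -- all top coefficients are multiples of `P w0`
      have hc : ∀ w, w.length = d + 1 → ∃ c : ℝ, P w = C c * P w0 := by
        intro w hw
        apply periodic hw0
        have h1 := hQ w
        unfold nextP at h1
        rw [hsec w (by omega), add_zero] at h1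
        have h2 : (X : ℝ[X]) ^ M ≠ 0 := pow_ne_zero _ X_ne_zero
        have h3 := (mul_eq_zero.1 h1).resolve_left h2
        exact sub_eq_zero.1 h3
      choose! c hc using hc
      obtain ⟨a0, v0, rfl⟩ : ∃ a0 v0, w0 = a0 :: v0 := by
        cases w0 with
        | nil => simp at hl0
        | cons a v => exact ⟨a, v, rfl⟩
      have hv0 : v0.length = d := by simpa using hl0
      set D : ℝ[X] := ∑ w ∈ W, if w ≠ [] ∧ w.tail = v0 then C (c w) * X ^ (M - w.headI) else 0
        with hD
      have heqn : Eqn M (P v0) (P (a0 :: v0)) D := by
        have h1 := hQ v0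
        unfold nextP at h1
        unfold Eqn
        rw [hD, Finset.sum_mul, Finset.sum_mul]
        refine Eq.trans ?_ h1
        congr 1
        refine Finset.sum_congr rfl fun w _ => ?_
        split_ifs with h
        · have hlw : w.length = d + 1 := by
            have h2 : w.tail.length = w.length - 1 := List.length_tail
            have h3 : 0 < w.length := List.length_pos_iff.2 h.1
            rw [h.2] at h2
            omega
          have h4 : sh (P w) = C (c w) * sh (P (a0 :: v0)) := by
            rw [hc w hlw, sh_C_mul]
          rw [h4]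
          ring
        · rw [zero_mul, zero_mul]
      have hDdeg : D = 0 ∨ D.natDegree < M := by
        by_cases hD0 : D = 0
        · left; exact hD0
        · right
          have hM1 : 1 ≤ M := (ra_one (hRA _ hw0W)).trans (hM _ hw0W a0 (by simp))
          have h1 : D.natDegree ≤ M - 1 := by
            rw [hD]
            refine natDegree_sum_le_of_forall_le _ _ fun w hw => ?_
            split_ifs with h
            · refine (natDegree_C_mul_X_pow_le _ _).trans ?_
              have h2 : 1 ≤ w.headI := by
                cases w with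
                | nil => exact absurd rfl h.1
                | cons b v => exact ra_one (hRA _ hw)
              omega
            · simp
          omega
      have hD0 := pole hw0 heqn hDdeg
      have h1 := congrArg (fun q : ℝ[X] => q.coeff (M - a0)) hD0
      simp only [hD, finsetSum_coeff, coeff_zero] at h1
      rw [Finset.sum_eq_single (a0 :: v0)] at h1
      · simp only [ne_eq, reduceCtorEq, not_false_eq_true, List.tail_cons, and_self, if_true,
          List.headI_cons, coeff_C_mul, coeff_X_pow, mul_one] at h1
        have h2 := hc (a0 :: v0) hl0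
        rw [h1] at h2
        apply hw0
        rw [h2]
        simp
      · intro w hw hne
        split_ifs with h
        · rw [coeff_C_mul, coeff_X_pow, if_neg, mul_zero]
          intro heq
          apply hne
          cases w with
          | nil => exact absurd rfl h.1
          | cons b v =>
            simp only [List.tail_cons, List.headI_cons] at h heq
            have hb := hM _ hw b (by simp)
            have ha := hM _ hw0W a0 (by simp)
            rw [h.2]
            congr 1
            omega
        · simp
      · intro h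
        exact absurd hw0W h

/-- **Independence** over the constants. -/
theorem indep (W : Finset (List ℕ)) (hW : ∀ w ∈ W, RA w) (c : List ℕ → ℝ)
    (h : Negl (fun m => ∑ w ∈ W, c w * T w m)) : ∀ w ∈ W, c w = 0 := by
  classical
  intro w hw
  have h1 := indep_aux (W.sup List.length) W.card W (fun v => if v ∈ W then C (c v) else 0)
    (fun v hv => if_neg hv) hW (fun v hv => by
      have hvW : v ∈ W := by
        by_contra hc
        exact hv (if_neg hc)
      exact Finset.le_sup (f := List.length) hvW)
    (fun S hS => Finset.card_le_card fun v hv => (hS v hv).1)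
    (negl_congr h (Eventually.of_forall fun m => by
      unfold rel
      refine Finset.sum_congr rfl fun v hv => ?_
      simp only [if_pos hv, eval_C])) w
  rw [if_pos hw] at h1
  simpa using h1

end Pool.Agent.U623.HF
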