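import Pool.Agent.U623.HF.Tail

/-! # Asymptotic expansions of the tails in powers of `1 / m` with rational coefficients -/

set_option autoImplicit false

open Filter Topology Polynomial Asymptotics

namespace Pool.Agent.U623.HF

open Pool.Agent.H447R2.MZ

/-- the expansion of `1 / (n - 1)` in `1 / n` -/
noncomputable def gK (K : ℕ) : ℚ[X] := ∑ k ∈ Finset.range K, X ^ (k + 1)

lemma gK_form (K : ℕ) (hK : 2 ≤ K) : ∃ e : ℚ[X], gK K = X * (1 + X + X ^ 2 * e) := by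
  obtain ⟨K, rfl⟩ := Nat.exists_eq_add_of_le' hK
  refine ⟨∑ k ∈ Finset.range K, X ^ k, ?_⟩
  unfold gK
  rw [Finset.sum_range_succ', Finset.sum_range_succ', Finset.mul_sum, mul_add, mul_add, Finset.mul_sum]
  have : ∀ k : ℕ, (X : ℚ[X]) ^ (k + 1 + 1 + 1) = X * (X ^ 2 * X ^ k) := fun k => by ring
  simp only [this]
  ring

lemma one_pow_form (e : ℚ[X]) (r : ℕ) : ∃ h : ℚ[X], (1 + X + X ^ 2 * e) ^ r = 1 + C (r : ℚ) * X + X ^ 2 * h := by
  induction r with
  | zero => exact ⟨0, by simp⟩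
  | succ r ih =>
    obtain ⟨h, hh⟩ := ih
    refine ⟨e + C (r : ℚ) + C (r : ℚ) * X * e + h * (1 + X + X ^ 2 * e), ?_⟩
    rw [pow_succ, hh]
    push_cast
    simp only [map_add, map_one]
    ring

lemma gK_pow (K r : ℕ) (hK : 2 ≤ K) : ∃ h : ℚ[X],
    (gK K) ^ r = X ^ r + C (r : ℚ) * X ^ (r + 1) + X ^ (r + 2) * h := by
  obtain ⟨e, he⟩ := gK_form K hK
  obtain ⟨h, hh⟩ := one_pow_form e r
  refine ⟨h, ?_⟩
  rw [he, mul_pow, hh]
  ring

lemma solve {K : ℕ} (hK : 2 ≤ K) : ∀ d j : ℕ, 2 ≤ j → K ≤ j + d → ∀ p : ℚ[X], X ^ j ∣ p →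
    ∃ q : ℚ[X], X ∣ q ∧ X ^ K ∣ q.comp (gK K) - q - p := by
  intro d
  induction d with
  | zero =>
    intro j _ hj p hp
    refine ⟨0, dvd_zero _, ?_⟩
    simp only [zero_comp, sub_zero, zero_sub, dvd_neg]
    exact (pow_dvd_pow X (by omega)).trans hp
  | succ d ih =>
    intro j hj2 hj p hp
    obtain ⟨p1, rfl⟩ := hp
    obtain ⟨r, rfl⟩ := Nat.exists_eq_add_of_le' hj2
    obtain ⟨h, hh⟩ := gK_pow K (r + 1) hK
    have hr : ((r + 1 : ℕ) : ℚ) ≠ 0 := by positivity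
    set c : ℚ := p1.coeff 0 with hc
    obtain ⟨p2, hp2⟩ : ∃ p2 : ℚ[X], p1 = C c + X * p2 := by
      have h1 : (X : ℚ[X]) ∣ p1 - C c := by
        rw [X_dvd_iff]
        simp [hc]
      obtain ⟨p2, h2⟩ := h1
      exact ⟨p2, by rw [← h2]; ring⟩
    set b : ℚ := c / ((r + 1 : ℕ) : ℚ) with hb
    have hbc : C b * C (((r + 1 : ℕ) : ℚ)) = (C c : ℚ[X]) := by
      rw [← C_mul, hb, div_mul_cancel₀ _ hr]
    obtain ⟨q, hq1, hq2⟩ := ih (r + 3) (by omega) (by omega)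
      (X ^ (r + 2) * p1 - ((C b * X ^ (r + 1)).comp (gK K) - C b * X ^ (r + 1))) (by
        refine ⟨p2 - C b * h, ?_⟩
        rw [mul_comp, C_comp, pow_comp, X_comp, hh, hp2]
        linear_combination (-(X ^ (r + 2))) * hbc)
    refine ⟨q + C b * X ^ (r + 1), ?_, ?_⟩
    · exact dvd_add hq1 (Dvd.dvd.mul_left (dvd_pow_self X (by omega)) _)
    · rw [add_comp]
      convert hq2 using 1
      ring

lemma lip (q : ℚ[X]) : ∃ L : ℝ, 0 ≤ L ∧ ∀ y z : ℝ, 0 ≤ y → y ≤ 1 → 0 ≤ z → z ≤ 1 →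
    |aeval y q - aeval z q| ≤ L * |y - z| := by
  induction q using Polynomial.induction_on' with
  | add p q hp hq =>
    obtain ⟨L1, h1, h1'⟩ := hp
    obtain ⟨L2, h2, h2'⟩ := hq
    refine ⟨L1 + L2, by positivity, fun y z hy hy1 hz hz1 => ?_⟩
    rw [map_add, map_add]
    calc |aeval y p + aeval y q - (aeval z p + aeval z q)|
        = |(aeval y p - aeval z p) + (aeval y q - aeval z q)| := by congr 1; ring
      _ ≤ _ := abs_add_le _ _
      _ ≤ L1 * |y - z| + L2 * |y - z| := add_le_add (h1' y z hy hy1 hz hz1) (h2' y z hy hy1 hz hz1)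
      _ = _ := by ring
  | monomial n a =>
    refine ⟨|(a : ℝ)| * n, by positivity, fun y z hy hy1 hz hz1 => ?_⟩
    have hpow : ∀ n : ℕ, |y ^ n - z ^ n| ≤ n * |y - z| := by
      intro n
      induction n with
      | zero => simp
      | succ n ih =>
        have e : y ^ (n + 1) - z ^ (n + 1) = y * (y ^ n - z ^ n) + (y - z) * z ^ n := by ring
        rw [e]
        calc _ ≤ |y * (y ^ n - z ^ n)| + |(y - z) * z ^ n| := abs_add_le _ _
          _ ≤ 1 * (n * |y - z|) + |y - z| * 1 := by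
              rw [abs_mul, abs_mul, abs_of_nonneg hy, abs_of_nonneg (pow_nonneg hz n)]
              gcongr
              exact pow_le_one₀ hz hz1
          _ = _ := by push_cast; ring
    rw [aeval_monomial, aeval_monomial, ← mul_sub, abs_mul]
    have e : (algebraMap ℚ ℝ) a = (a : ℝ) := rfl
    rw [e, mul_assoc]
    gcongr
    exact hpow n

lemma aeval_O {p : ℚ[X]} {k : ℕ} (h : X ^ k ∣ p) :
    (fun m : ℕ => aeval ((m : ℝ)⁻¹) p) =O[atTop] (fun m : ℕ => ((m : ℝ) ^ k)⁻¹) := by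
  obtain ⟨p1, rfl⟩ := h
  obtain ⟨L, hL, h1⟩ := lip p1
  refine IsBigO.of_bound (|aeval (0 : ℝ) p1| + L) ?_
  filter_upwards [eventually_ge_atTop 1] with m hm
  have hm1 : (1 : ℝ) ≤ m := by exact_mod_cast hm
  have hx0 : 0 ≤ (m : ℝ)⁻¹ := by positivity
  have hx1 : (m : ℝ)⁻¹ ≤ 1 := inv_le_one_of_one_le₀ hm1
  have h2 := h1 (m : ℝ)⁻¹ 0 hx0 hx1 le_rfl zero_le_one
  have h3 : |aeval ((m : ℝ)⁻¹) p1| ≤ |aeval (0 : ℝ) p1| + L := by
    rw [sub_zero, abs_of_nonneg hx0] at h2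
    have h4 : |aeval ((m : ℝ)⁻¹) p1| - |aeval (0 : ℝ) p1| ≤ |aeval ((m : ℝ)⁻¹) p1 - aeval (0 : ℝ) p1| :=
      abs_sub_abs_le_abs_sub _ _
    have h5 : L * (m : ℝ)⁻¹ ≤ L := mul_le_of_le_one_right hL hx1
    linarith
  rw [map_mul, map_pow, aeval_X, norm_mul, norm_pow, norm_inv, norm_inv, norm_pow, Real.norm_eq_abs,
    Real.norm_eq_abs, mul_comm, inv_pow]
  gcongr

lemma tl_O {e : ℕ → ℝ} {J : ℕ} (h : e =O[atTop] (fun m : ℕ => ((m : ℝ) ^ (J + 2))⁻¹)) :
    tl e =O[atTop] (fun m : ℕ => ((m : ℝ) ^ (J + 1))⁻¹) := by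
  obtain ⟨C, hC, hb⟩ := h.exists_nonneg
  rw [IsBigOWith] at hb
  obtain ⟨N, hN⟩ := eventually_atTop.1 hb
  refine IsBigO.of_bound (2 * C) ?_
  filter_upwards [eventually_ge_atTop (max N 1)] with m hm
  have hmN : N ≤ m := (le_max_left _ _).trans hm
  have hm1 : 1 ≤ m := (le_max_right _ _).trans hm
  have hm0 : (0 : ℝ) < m := by exact_mod_cast hm1
  have h1 : ∀ n, m + 1 ≤ n → 0 ≤ |e n| ∧ |e n| ≤ (C * (((m : ℝ) + 1) ^ J)⁻¹) * ((n : ℝ) ^ 2)⁻¹ := by
    intro n hn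
    refine ⟨abs_nonneg _, ?_⟩
    have h2 := hN n (by omega)
    have hn0 : (0 : ℝ) < n := by exact_mod_cast (by omega : 0 < n)
    have hnm : (m : ℝ) + 1 ≤ n := by exact_mod_cast hn
    rw [Real.norm_eq_abs, norm_inv, norm_pow, Real.norm_eq_abs, abs_of_pos hn0] at h2
    refine h2.trans ?_
    rw [pow_add, mul_inv, mul_assoc]
    gcongr
  obtain ⟨s1, s2, s3⟩ := tl_bound (f := fun n => |e n|) (m := m) (by positivity) h1
  have h3 : ‖tl e m‖ ≤ tl (fun n => |e n|) m := by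
    unfold tl
    exact norm_tsum_le_tsum_norm s1
  refine h3.trans (s3.trans ?_)
  rw [norm_inv, norm_pow, Real.norm_eq_abs, abs_of_pos hm0, pow_succ, mul_inv]
  have h4 : (((m : ℝ) + 1) ^ J)⁻¹ ≤ ((m : ℝ) ^ J)⁻¹ := by
    gcongr
    linarith
  have h5 : ((m : ℝ) + 1)⁻¹ ≤ (m : ℝ)⁻¹ := by
    gcongr
    linarith
  calc 2 * (C * (((m : ℝ) + 1) ^ J)⁻¹) * ((m : ℝ) + 1)⁻¹
      ≤ 2 * (C * ((m : ℝ) ^ J)⁻¹) * (m : ℝ)⁻¹ := by gcongr
    _ = 2 * C * (((m : ℝ) ^ J)⁻¹ * (m : ℝ)⁻¹) := by ring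

/-- the asymptotic expansions of the function `f` in powers of `1 / m`; the coefficients are rational and
those of `1, …, m ^ (-(k - 1))` vanish -/
def Ex (k : ℕ) (f : ℕ → ℝ) : Prop := ∀ J : ℕ, ∃ p : ℚ[X], X ^ k ∣ p ∧
  (fun m : ℕ => f m - aeval ((m : ℝ)⁻¹) p) =O[atTop] (fun m : ℕ => ((m : ℝ) ^ J)⁻¹)

lemma Ex.mono {k k' : ℕ} {f : ℕ → ℝ} (h : Ex k f) (hk : k' ≤ k) : Ex k' f := by
  intro J
  obtain ⟨p, h1, h2⟩ := h J
  exact ⟨p, (pow_dvd_pow X hk).trans h1, h2⟩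

lemma Ex.mul {k : ℕ} {f : ℕ → ℝ} (h : Ex k f) (a : ℕ) : Ex (k + a) (fun n => ((n : ℝ) ^ a)⁻¹ * f n) := by
  intro J
  obtain ⟨p, h1, h2⟩ := h J
  refine ⟨X ^ a * p, ?_, ?_⟩
  · rw [pow_add, mul_comm]
    exact mul_dvd_mul_left _ h1
  · have h3 : (fun m : ℕ => ((m : ℝ) ^ a)⁻¹ * f m - aeval ((m : ℝ)⁻¹) (X ^ a * p)) =
        fun m : ℕ => ((m : ℝ) ^ a)⁻¹ * (f m - aeval ((m : ℝ)⁻¹) p) := by
      funext m
      rw [map_mul, map_pow, aeval_X, inv_pow]
      ring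
    rw [h3]
    have h4 : (fun m : ℕ => ((m : ℝ) ^ a)⁻¹) =O[atTop] (fun _ : ℕ => (1 : ℝ)) := by
      refine IsBigO.of_bound 1 ?_
      filter_upwards [eventually_ge_atTop 1] with m hm
      have hm1 : (1 : ℝ) ≤ m := by exact_mod_cast hm
      rw [norm_one, mul_one, Real.norm_of_nonneg (by positivity)]
      exact inv_le_one_of_one_le₀ (one_le_pow₀ hm1)
    simpa using h4.mul h2

lemma prev_O (q : ℚ[X]) (K : ℕ) :
    (fun n : ℕ => aeval ((((n - 1 : ℕ) : ℝ))⁻¹) q - aeval ((n : ℝ)⁻¹) (q.comp (gK K)))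
      =O[atTop] (fun m : ℕ => ((m : ℝ) ^ (K + 1))⁻¹) := by
  obtain ⟨L, hL, h1⟩ := lip q
  refine IsBigO.of_bound (L * 2) ?_
  filter_upwards [eventually_ge_atTop 2] with n hn
  have hn2 : (2 : ℝ) ≤ n := by exact_mod_cast hn
  have hn0 : (0 : ℝ) < n := by linarith
  set x : ℝ := (n : ℝ)⁻¹ with hx
  have hx0 : 0 < x := by positivity
  have hx2 : x ≤ 1 / 2 := by
    rw [hx, inv_eq_one_div]
    exact one_div_le_one_div_of_le (by norm_num) hn2
  have hy : (((n - 1 : ℕ) : ℝ))⁻¹ = x / (1 - x) := by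
    rw [Nat.cast_sub (by omega), hx]
    have : (n : ℝ) - 1 ≠ 0 := by linarith
    push_cast
    field_simp
  have hg : aeval x (gK K) = x / (1 - x) - x ^ (K + 1) / (1 - x) := by
    unfold gK
    rw [map_sum]
    simp only [map_pow, aeval_X]
    have h2 : ∑ k ∈ Finset.range K, x ^ (k + 1) = x * ∑ k ∈ Finset.range K, x ^ k := by
      rw [Finset.mul_sum]
      exact Finset.sum_congr rfl fun k _ => by ring
    have h3 : x ≠ 1 := by linarith
    have h4 : 1 - x ≠ 0 := by linarith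
    have h5 : x - 1 ≠ 0 := by linarith
    rw [h2, geom_sum_eq h3]
    field_simp
    ring
  have h1x : 1 / 2 ≤ 1 - x := by linarith
  have hq1 : x ^ (K + 1) / (1 - x) ≤ 2 * x ^ (K + 1) := by
    rw [div_le_iff₀ (by linarith)]
    nlinarith [pow_pos hx0 (K + 1)]
  have hq0 : 0 ≤ x ^ (K + 1) / (1 - x) := div_nonneg (by positivity) (by linarith)
  have hy0 : 0 ≤ x / (1 - x) := div_nonneg hx0.le (by linarith)
  have hy1 : x / (1 - x) ≤ 1 := by
    rw [div_le_one (by linarith)]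
    linarith
  have hg0 : 0 ≤ aeval x (gK K) := by
    unfold gK
    rw [map_sum]
    refine Finset.sum_nonneg fun k _ => ?_
    rw [map_pow, aeval_X]
    positivity
  have h6 := h1 (x / (1 - x)) (aeval x (gK K)) hy0 hy1 hg0 (by rw [hg]; linarith)
  rw [hy, aeval_comp, Real.norm_eq_abs]
  refine h6.trans ?_
  have h7 : x / (1 - x) - aeval x (gK K) = x ^ (K + 1) / (1 - x) := by rw [hg]; ring
  rw [h7, abs_of_nonneg hq0, mul_assoc]
  refine mul_le_mul_of_nonneg_left (hq1.trans (le_of_eq ?_)) hL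
  rw [norm_inv, norm_pow, Real.norm_of_nonneg hn0.le, hx, inv_pow]

lemma aeval_tendsto {q : ℚ[X]} (h : X ∣ q) : Tendsto (fun m : ℕ => aeval ((m : ℝ)⁻¹) q) atTop (𝓝 0) := by
  have h1 := aeval_O (p := q) (k := 1) (by rwa [pow_one])
  simp only [pow_one] at h1
  exact h1.trans_tendsto tendsto_inv_atTop_nhds_zero_nat

lemma Ex.tail {f : ℕ → ℝ} (h : Ex 2 f) (hs : ∀ m, Summable (fun n => f (n + (m + 1)))) : Ex 1 (tl f) := by
  intro J
  obtain ⟨p, h1, h2⟩ := h (J + 2)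
  obtain ⟨q, h3, h4⟩ := solve (K := J + 2) (by omega) (J + 2) 2 le_rfl (by omega) p h1
  refine ⟨q, by rwa [pow_one], ?_⟩
  set Q : ℕ → ℝ := fun n => aeval ((n : ℝ)⁻¹) q with hQ
  set e : ℕ → ℝ := fun n => Q (n - 1) - Q n - f n with he
  have heO : e =O[atTop] (fun m : ℕ => ((m : ℝ) ^ (J + 2))⁻¹) := by
    have e1 : e = fun n : ℕ => (aeval ((((n - 1 : ℕ) : ℝ))⁻¹) q - aeval ((n : ℝ)⁻¹) (q.comp (gK (J + 2)))) +
        (aeval ((n : ℝ)⁻¹) (q.comp (gK (J + 2)) - q - p) - (f n - aeval ((n : ℝ)⁻¹) p)) := by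
      funext n
      simp only [he, hQ, map_sub]
      ring
    rw [e1]
    refine IsBigO.add ?_ ((aeval_O h4).sub h2)
    refine (prev_O q (J + 2)).trans ?_
    refine IsBigO.of_bound 1 ?_
    filter_upwards [eventually_ge_atTop 1] with m hm
    have hm1 : (1 : ℝ) ≤ m := by exact_mod_cast hm
    rw [one_mul, Real.norm_of_nonneg (by positivity), Real.norm_of_nonneg (by positivity)]
    exact inv_anti₀ (by positivity) (pow_le_pow_right₀ hm1 (by omega))
  have heS : Summable e := by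
    refine summable_of_isBigO_nat (g := fun n : ℕ => ((n : ℝ) ^ 2)⁻¹)
      (Real.summable_nat_pow_inv.2 (by norm_num)) (heO.trans ?_)
    refine IsBigO.of_bound 1 ?_
    filter_upwards [eventually_ge_atTop 1] with m hm
    have hm1 : (1 : ℝ) ≤ m := by exact_mod_cast hm
    rw [one_mul, Real.norm_of_nonneg (by positivity), Real.norm_of_nonneg (by positivity)]
    exact inv_anti₀ (by positivity) (pow_le_pow_right₀ hm1 (by omega))
  have key : ∀ m, tl f m - Q m = - tl e m := by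
    intro m
    have s1 : Summable (fun n => e (n + (m + 1))) := (summable_nat_add_iff (m + 1)).2 heS
    have s2 := (s1.add (hs m)).hasSum.tendsto_sum_nat
    have s3 : ∀ k, ∑ i ∈ Finset.range k, (e (i + (m + 1)) + f (i + (m + 1))) = Q m - Q (k + m) := by
      intro k
      induction k with
      | zero => simp
      | succ k ih =>
        rw [Finset.sum_range_succ, ih]
        simp only [he]
        have e2 : k + (m + 1) - 1 = k + m := by omega
        have e3 : k + 1 + m = k + (m + 1) := by omega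
        rw [e2, e3]
        ring
    simp only [s3] at s2
    have s4 : Tendsto (fun k => Q m - Q (k + m)) atTop (𝓝 (Q m - 0)) := by
      refine tendsto_const_nhds.sub ?_
      exact (aeval_tendsto h3).comp (tendsto_add_atTop_nat m)
    have s5 := tendsto_nhds_unique s2 s4
    rw [s1.tsum_add (hs m)] at s5
    unfold tl
    linarith
  have e4 : (fun m : ℕ => tl f m - aeval ((m : ℝ)⁻¹) q) = fun m => - tl e m := by
    funext m
    exact key m
  rw [e4]
  refine (tl_O heO).neg_left.trans ?_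
  refine IsBigO.of_bound 1 ?_
  filter_upwards [eventually_ge_atTop 1] with m hm
  have hm1 : (1 : ℝ) ≤ m := by exact_mod_cast hm
  rw [one_mul, Real.norm_of_nonneg (by positivity), Real.norm_of_nonneg (by positivity)]
  exact inv_anti₀ (by positivity) (pow_le_pow_right₀ hm1 (by omega))

/-- the tails have asymptotic expansions -/
theorem T_Ex : ∀ w : List ℕ, RA w → Ex 0 (T w) ∧ (w ≠ [] → Ex 1 (T w)) := by
  intro w
  induction w with
  | nil =>
    intro _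
    refine ⟨fun J => ⟨1, by simp, ?_⟩, fun h => absurd rfl h⟩
    have : (fun m : ℕ => T [] m - aeval ((m : ℝ)⁻¹) (1 : ℚ[X])) = fun _ => (0 : ℝ) := by
      funext m
      rw [T_nil]
      simp
    rw [this]
    exact isBigO_zero _ _
  | cons a w ih =>
    intro hw
    obtain ⟨i0, i1⟩ := ih (ra_tail hw)
    have h2 : Ex 2 (fun n => ((n : ℝ) ^ a)⁻¹ * T w n) := by
      by_cases h : w = []
      · subst h
        have := ra_two hw
        exact (i0.mul a).mono (by omega)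
      · have := ra_one hw
        exact ((i1 h).mul a).mono (by omega)
    have h3 : Ex 1 (T (a :: w)) := by
      rw [T_cons]
      exact h2.tail fun m => f_summable hw m
    exact ⟨h3.mono (by omega), fun _ => h3⟩

end Pool.Agent.U623.HF
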