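import Pool.Agent.U623.HF.Exp
import Pool.Agent.U623.HF.Indep

/-! # Combinations of the tails with integer coefficients are not small -/

set_option autoImplicit false

open Filter Topology Polynomial Asymptotics

namespace Pool.Agent.U623.HF

open Pool.Agent.H447R2.MZ

lemma sum_O {W : Finset (List ℕ)} {f : List ℕ → ℕ → ℝ} {g : ℕ → ℝ} (h : ∀ w ∈ W, f w =O[atTop] g) :
    (fun m => ∑ w ∈ W, f w m) =O[atTop] g := by
  have h1 : (∑ w ∈ W, f w) =O[atTop] g := IsBigO.sum h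
  refine h1.congr_left fun m => ?_
  rw [Finset.sum_apply]

/-- the combinations of order at least `J` -/
noncomputable def KJ (W : Finset (List ℕ)) (J : ℕ) : Submodule ℚ (W → ℚ) where
  carrier := {c | (fun m : ℕ => ∑ w : W, ((c w : ℚ) : ℝ) * T w.1 m) =O[atTop]
    (fun m : ℕ => ((m : ℝ) ^ J)⁻¹)}
  add_mem' := by
    intro a b ha hb
    have := IsBigO.add ha hb
    refine this.congr_left fun m => ?_
    rw [← Finset.sum_add_distrib]
    refine Finset.sum_congr rfl fun w _ => ?_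
    simp only [Pi.add_apply, Rat.cast_add]
    ring
  zero_mem' := by
    have : (fun m : ℕ => ∑ w : W, (((0 : W → ℚ) w : ℚ) : ℝ) * T w.1 m) = fun _ => (0 : ℝ) := by
      funext m
      simp
    show (fun m : ℕ => ∑ w : W, (((0 : W → ℚ) w : ℚ) : ℝ) * T w.1 m) =O[atTop] _
    rw [this]
    exact isBigO_zero _ _
  smul_mem' := by
    intro r a ha
    have := IsBigO.const_mul_left ha (r : ℝ)
    refine this.congr_left fun m => ?_
    rw [Finset.mul_sum]
    refine Finset.sum_congr rfl fun w _ => ?_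
    simp only [Pi.smul_apply, smul_eq_mul, Rat.cast_mul]
    ring

lemma mem_KJ {W : Finset (List ℕ)} {J : ℕ} {c : W → ℚ} : c ∈ KJ W J ↔
    (fun m : ℕ => ∑ w : W, ((c w : ℚ) : ℝ) * T w.1 m) =O[atTop] (fun m : ℕ => ((m : ℝ) ^ J)⁻¹) :=
  Iff.rfl

lemma pow_inv_O {i j : ℕ} (h : i ≤ j) :
    (fun m : ℕ => ((m : ℝ) ^ j)⁻¹) =O[atTop] (fun m : ℕ => ((m : ℝ) ^ i)⁻¹) := by
  refine IsBigO.of_bound 1 ?_
  filter_upwards [eventually_ge_atTop 1] with m hm
  have hm1 : (1 : ℝ) ≤ m := by exact_mod_cast hm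
  rw [one_mul, Real.norm_of_nonneg (by positivity), Real.norm_of_nonneg (by positivity)]
  exact inv_anti₀ (by positivity) (pow_le_pow_right₀ hm1 h)

lemma KJ_anti (W : Finset (List ℕ)) : Antitone (KJ W) :=
  fun _ _ hij _ hc => IsBigO.trans hc (pow_inv_O hij)

theorem stab (W : Finset (List ℕ)) (hW : ∀ w ∈ W, RA w) : ∃ J : ℕ, KJ W J = ⊥ := by
  obtain ⟨J, hJ⟩ := IsArtinian.monotone_stabilizes (R := ℚ) (M := W → ℚ)
    ⟨fun J => OrderDual.toDual (KJ W J), fun i j hij => KJ_anti W hij⟩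
  refine ⟨J, ?_⟩
  rw [eq_bot_iff]
  intro c hc
  have h1 : ∀ i, c ∈ KJ W i := by
    intro i
    rcases le_total i J with h | h
    · exact KJ_anti W h hc
    · have := hJ i h
      have h2 : KJ W J = KJ W i := this
      rw [← h2]
      exact hc
  have h2 := indep W hW (fun w => if h : w ∈ W then ((c ⟨w, h⟩ : ℚ) : ℝ) else 0) (by
    intro i
    refine (mem_KJ.1 (h1 i)).congr_left fun m => ?_
    rw [← Finset.sum_coe_sort W]
    refine Finset.sum_congr rfl fun w _ => ?_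
    rw [dif_pos w.2])
  rw [Submodule.mem_bot]
  funext w
  have h3 := h2 w.1 w.2
  rw [dif_pos w.2] at h3
  exact_mod_cast h3

lemma common_den (W : Finset (List ℕ)) (p : List ℕ → ℚ[X]) : ∃ D : ℕ, 1 ≤ D ∧
    ∀ w ∈ W, ∀ i, ∃ z : ℤ, (D : ℚ) * (p w).coeff i = z := by
  classical
  refine ⟨∏ w ∈ W, ∏ i ∈ (p w).support, ((p w).coeff i).den, ?_, ?_⟩
  · exact Nat.one_le_iff_ne_zero.2 (Finset.prod_ne_zero_iff.2 fun w _ =>
      Finset.prod_ne_zero_iff.2 fun i _ => Rat.den_nz _)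
  · intro w hw i
    by_cases hi : i ∈ (p w).support
    · have h1 : ((p w).coeff i).den ∣ ∏ w ∈ W, ∏ i ∈ (p w).support, ((p w).coeff i).den :=
        (Finset.dvd_prod_of_mem (fun i => ((p w).coeff i).den) hi).trans
          (Finset.dvd_prod_of_mem (fun w => ∏ i ∈ (p w).support, ((p w).coeff i).den) hw)
      obtain ⟨k, hk⟩ := h1
      refine ⟨k * ((p w).coeff i).num, ?_⟩
      rw [hk]
      push_cast
      have h2 : (((p w).coeff i).den : ℚ) * (p w).coeff i = ((p w).coeff i).num := by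
        rw [mul_comm]
        exact Rat.mul_den_eq_num _
      calc ((p w).coeff i).den * (k : ℚ) * (p w).coeff i
          = k * (((p w).coeff i).den * (p w).coeff i) := by ring
        _ = _ := by rw [h2]
    · rw [mem_support_iff, not_not] at hi
      exact ⟨0, by rw [hi]; simp⟩

/-- **The lower bound.** -/
theorem lower (W : Finset (List ℕ)) (hW : ∀ w ∈ W, RA w) : ∃ κ : ℝ, 0 < κ ∧ ∃ J m0 : ℕ,
    ∀ c : List ℕ → ℤ, (∃ w ∈ W, c w ≠ 0) → ∃ ε : ℝ, (ε = 1 ∨ ε = -1) ∧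
      ∀ H : ℝ, (∀ w ∈ W, |(c w : ℝ)| ≤ H) → ∀ m : ℕ, m0 ≤ m → H ≤ κ * m →
        κ * ((m : ℝ) ^ J)⁻¹ ≤ ε * ∑ w ∈ W, (c w : ℝ) * T w m := by
  classical
  obtain ⟨J, hJ⟩ := stab W hW
  have hex : ∀ w ∈ W, ∃ p : ℚ[X], (fun m : ℕ => T w m - aeval ((m : ℝ)⁻¹) p) =O[atTop]
      (fun m : ℕ => ((m : ℝ) ^ J)⁻¹) := fun w hw => by
    obtain ⟨p, -, h⟩ := (T_Ex w (hW w hw)).1 J
    exact ⟨p, h⟩
  choose! p hp using hex
  obtain ⟨D, hD1, hD⟩ := common_den W p
  -- the error terms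
  obtain ⟨C2, m1, hC2, hm1⟩ : ∃ (C2 : ℝ) (m1 : ℕ), 0 ≤ C2 ∧ ∀ m : ℕ, m1 ≤ m →
      ∑ w ∈ W, |T w m - aeval ((m : ℝ)⁻¹) (p w)| ≤ C2 * ((m : ℝ) ^ J)⁻¹ := by
    have h1 : (fun m : ℕ => ∑ w ∈ W, |T w m - aeval ((m : ℝ)⁻¹) (p w)|) =O[atTop]
        (fun m : ℕ => ((m : ℝ) ^ J)⁻¹) := by
      exact sum_O (f := fun w m => |T w m - aeval ((m : ℝ)⁻¹) (p w)|) fun w hw => (hp w hw).abs_left
    obtain ⟨C, hC, hb⟩ := h1.exists_nonneg
    rw [IsBigOWith] at hb
    obtain ⟨N, hN⟩ := eventually_atTop.1 hb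
    refine ⟨C, N, hC, fun m hm => ?_⟩
    have h2 := hN m hm
    rw [Real.norm_of_nonneg (Finset.sum_nonneg fun _ _ => abs_nonneg _),
      Real.norm_of_nonneg (by positivity)] at h2
    exact h2
  obtain ⟨N, hN⟩ : ∃ N : ℕ, ∀ w ∈ W, (p w).natDegree < N := by
    refine ⟨W.sup (fun w => (p w).natDegree) + 1, fun w hw => ?_⟩
    have := Finset.le_sup (f := fun w => (p w).natDegree) hw
    omega
  obtain ⟨S, hS⟩ : ∃ S : ℝ, S = ∑ w ∈ W, ∑ i ∈ Finset.range N, |(((p w).coeff i : ℚ) : ℝ)| := ⟨_, rfl⟩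
  have hS0 : 0 ≤ S := by
    rw [hS]
    exact Finset.sum_nonneg fun _ _ => Finset.sum_nonneg fun _ _ => abs_nonneg _
  have hD0 : (0 : ℝ) < D := by exact_mod_cast hD1
  obtain ⟨κ, hκ⟩ : ∃ κ : ℝ, κ = 1 / (2 * D * (S + C2 + 1)) := ⟨_, rfl⟩
  have hκ0 : 0 < κ := by rw [hκ]; positivity
  have hκ1 : κ ≤ 1 / (2 * D) := by
    rw [hκ]
    apply one_div_le_one_div_of_le (by positivity)
    nlinarith
  refine ⟨κ, hκ0, J, max m1 1, fun c hc => ?_⟩
  -- the polynomial
  obtain ⟨Pc, hPc⟩ : ∃ Pc : ℚ[X], Pc = ∑ w ∈ W, C ((c w : ℤ) : ℚ) * p w := ⟨_, rfl⟩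
  have hcoef : ∀ i, Pc.coeff i = ∑ w ∈ W, ((c w : ℤ) : ℚ) * (p w).coeff i := by
    intro i
    rw [hPc, finsetSum_coeff]
    exact Finset.sum_congr rfl fun w _ => coeff_C_mul _
  have haev : ∀ x : ℝ, aeval x Pc = ∑ w ∈ W, (c w : ℝ) * aeval x (p w) := by
    intro x
    rw [hPc, map_sum]
    refine Finset.sum_congr rfl fun w _ => ?_
    rw [map_mul, aeval_C]
    simp
  have hdeg : Pc.natDegree < N := by
    rw [hPc]
    have h1 : N ≠ 0 := by
      obtain ⟨w, hw, -⟩ := hc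
      have := hN w hw
      omega
    have h2 : (∑ w ∈ W, C ((c w : ℤ) : ℚ) * p w).natDegree ≤ N - 1 := by
      refine natDegree_sum_le_of_forall_le _ _ fun w hw => ?_
      refine (natDegree_C_mul_le _ _).trans ?_
      have := hN w hw
      omega
    omega
  -- the first coefficient
  have hj : ∃ i, i < J ∧ Pc.coeff i ≠ 0 := by
    by_contra hcon
    push Not at hcon
    have h1 : X ^ J ∣ Pc := by
      rw [X_pow_dvd_iff]
      exact hcon
    have h2 : (fun w : W => ((c w.1 : ℤ) : ℚ)) ∈ KJ W J := by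
      rw [mem_KJ]
      have h3 : (fun m : ℕ => ∑ w : W, ((((c w.1 : ℤ) : ℚ) : ℚ) : ℝ) * T w.1 m) =
          fun m : ℕ => (∑ w ∈ W, (c w : ℝ) * (T w m - aeval ((m : ℝ)⁻¹) (p w))) +
            aeval ((m : ℝ)⁻¹) Pc := by
        funext m
        rw [haev, ← Finset.sum_add_distrib, ← Finset.sum_coe_sort W]
        refine Finset.sum_congr rfl fun w _ => ?_
        push_cast
        ring
      rw [h3]
      refine IsBigO.add ?_ (aeval_O h1)
      exact sum_O (f := fun w m => (c w : ℝ) * (T w m - aeval ((m : ℝ)⁻¹) (p w)))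
        fun w hw => (hp w hw).const_mul_left _
    rw [hJ, Submodule.mem_bot] at h2
    obtain ⟨w, hw, hcw⟩ := hc
    have h4 := congrFun h2 ⟨w, hw⟩
    simp only [Pi.zero_apply, Int.cast_eq_zero] at h4
    exact hcw h4
  obtain ⟨j, ⟨hjJ, hj0⟩, hjmin⟩ : ∃ j, (j < J ∧ Pc.coeff j ≠ 0) ∧ ∀ i < j, Pc.coeff i = 0 := by
    refine ⟨Nat.find hj, Nat.find_spec hj, fun i hi => ?_⟩
    have h1 := Nat.find_min hj hi
    push Not at h1
    exact h1 (hi.trans (Nat.find_spec hj).1)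
  have hjN : j < N := by
    by_contra hlt
    push Not at hlt
    exact hj0 (coeff_eq_zero_of_natDegree_lt (by omega))
  obtain ⟨a, ha⟩ : ∃ a : ℝ, a = ((Pc.coeff j : ℚ) : ℝ) := ⟨_, rfl⟩
  have ha1 : 1 / (D : ℝ) ≤ |a| := by
    obtain ⟨z, hz⟩ : ∃ z : ℤ, (D : ℚ) * Pc.coeff j = z := by
      have h1 : ∀ w, ∃ z : ℤ, w ∈ W → (D : ℚ) * (p w).coeff j = z := by
        intro w
        by_cases hw : w ∈ W
        · obtain ⟨z, hz⟩ := hD w hw j
          exact ⟨z, fun _ => hz⟩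
        · exact ⟨0, fun h => absurd h hw⟩
      choose z hz using h1
      refine ⟨∑ w ∈ W, c w * z w, ?_⟩
      rw [hcoef, Finset.mul_sum]
      push_cast
      refine Finset.sum_congr rfl fun w hw => ?_
      rw [← hz w hw]
      ring
    have hz0 : z ≠ 0 := by
      rintro rfl
      have : (D : ℚ) ≠ 0 := by exact_mod_cast (by omega : D ≠ 0)
      rw [Int.cast_zero, mul_eq_zero] at hz
      rcases hz with h | h
      · exact this h
      · exact hj0 h
    have h1 : (D : ℝ) * a = z := by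
      rw [ha]
      exact_mod_cast hz
    have h2 : (1 : ℝ) ≤ |(z : ℝ)| := by exact_mod_cast Int.one_le_abs hz0
    rw [← h1, abs_mul, abs_of_pos hD0] at h2
    rw [div_le_iff₀ hD0, mul_comm]
    exact h2
  have hfin : ∀ H : ℝ, (∀ w ∈ W, |(c w : ℝ)| ≤ H) → ∀ m : ℕ, max m1 1 ≤ m → H ≤ κ * m →
      |∑ w ∈ W, (c w : ℝ) * T w m - a * ((m : ℝ) ^ j)⁻¹| ≤ 1 / (2 * D) * ((m : ℝ) ^ j)⁻¹ := by
    intro H hH m hm hHm
    have hmm1 : m1 ≤ m := (le_max_left _ _).trans hm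
    have hm1' : 1 ≤ m := (le_max_right _ _).trans hm
    have hmr : (1 : ℝ) ≤ m := by exact_mod_cast hm1'
    have hm0 : (0 : ℝ) < m := by linarith
    have hH0 : 0 ≤ H := by
      obtain ⟨w, hw, -⟩ := hc
      exact (abs_nonneg _).trans (hH w hw)
    obtain ⟨x, hx⟩ : ∃ x : ℝ, x = (m : ℝ)⁻¹ := ⟨_, rfl⟩
    have hx0 : 0 < x := by rw [hx]; positivity
    have hx1 : x ≤ 1 := by rw [hx]; exact inv_le_one_of_one_le₀ hmr
    have hxp : ∀ i, ((m : ℝ) ^ i)⁻¹ = x ^ i := fun i => by rw [hx, inv_pow]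
    -- part 1
    have q1 : |∑ w ∈ W, (c w : ℝ) * T w m - aeval x Pc| ≤ H * (C2 * x ^ J) := by
      rw [haev, ← Finset.sum_sub_distrib]
      calc _ ≤ ∑ w ∈ W, |(c w : ℝ) * T w m - (c w : ℝ) * aeval x (p w)| :=
            Finset.abs_sum_le_sum_abs _ _
        _ ≤ ∑ w ∈ W, H * |T w m - aeval x (p w)| := by
            refine Finset.sum_le_sum fun w hw => ?_
            rw [← mul_sub, abs_mul]
            exact mul_le_mul_of_nonneg_right (hH w hw) (abs_nonneg _)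
        _ = H * ∑ w ∈ W, |T w m - aeval x (p w)| := by rw [Finset.mul_sum]
        _ ≤ _ := by
            refine mul_le_mul_of_nonneg_left ?_ hH0
            have := hm1 m hmm1
            rw [hxp, ← hx] at this
            exact this
    -- part 2
    have q2 : |aeval x Pc - a * x ^ j| ≤ H * S * x ^ (j + 1) := by
      have e1 : aeval x Pc = ∑ i ∈ Finset.range N, ((Pc.coeff i : ℚ) : ℝ) * x ^ i := by
        rw [aeval_eq_sum_range' hdeg]
        refine Finset.sum_congr rfl fun i _ => ?_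
        rw [Rat.smul_def]
      have e2 : aeval x Pc - a * x ^ j =
          ∑ i ∈ (Finset.range N).erase j, ((Pc.coeff i : ℚ) : ℝ) * x ^ i := by
        rw [e1, ← Finset.add_sum_erase _ _ (Finset.mem_range.2 hjN), ha]
        ring
      rw [e2]
      calc _ ≤ ∑ i ∈ (Finset.range N).erase j, |((Pc.coeff i : ℚ) : ℝ) * x ^ i| :=
            Finset.abs_sum_le_sum_abs _ _
        _ ≤ ∑ i ∈ (Finset.range N).erase j, |((Pc.coeff i : ℚ) : ℝ)| * x ^ (j + 1) := by
            refine Finset.sum_le_sum fun i hi => ?_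
            rw [abs_mul, abs_of_nonneg (pow_nonneg hx0.le i)]
            rcases lt_trichotomy i j with h | h | h
            · rw [hjmin i h]
              simp
            · exact absurd h (Finset.ne_of_mem_erase hi)
            · exact mul_le_mul_of_nonneg_left (pow_le_pow_of_le_one hx0.le hx1 h) (abs_nonneg _)
        _ ≤ ∑ i ∈ Finset.range N, |((Pc.coeff i : ℚ) : ℝ)| * x ^ (j + 1) :=
            Finset.sum_le_sum_of_subset_of_nonneg (Finset.erase_subset _ _)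
              fun i _ _ => by positivity
        _ = (∑ i ∈ Finset.range N, |((Pc.coeff i : ℚ) : ℝ)|) * x ^ (j + 1) := by rw [Finset.sum_mul]
        _ ≤ (H * S) * x ^ (j + 1) := by
            refine mul_le_mul_of_nonneg_right ?_ (by positivity)
            calc ∑ i ∈ Finset.range N, |((Pc.coeff i : ℚ) : ℝ)|
                ≤ ∑ i ∈ Finset.range N, ∑ w ∈ W, H * |(((p w).coeff i : ℚ) : ℝ)| := by
                  refine Finset.sum_le_sum fun i _ => ?_
                  rw [hcoef]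
                  push_cast
                  refine (Finset.abs_sum_le_sum_abs _ _).trans (Finset.sum_le_sum fun w hw => ?_)
                  rw [abs_mul]
                  exact mul_le_mul_of_nonneg_right (hH w hw) (abs_nonneg _)
              _ = H * S := by
                  rw [Finset.sum_comm, hS, Finset.mul_sum]
                  exact Finset.sum_congr rfl fun w _ => by rw [Finset.mul_sum]
    have hHx : H * x ≤ κ := by
      rw [hx, ← div_eq_mul_inv, div_le_iff₀ hm0]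
      exact hHm
    have hxJ : x ^ J ≤ x ^ (j + 1) := pow_le_pow_of_le_one hx0.le hx1 hjJ
    have hxj : 0 < x ^ j := pow_pos hx0 j
    rw [hxp]
    calc |∑ w ∈ W, (c w : ℝ) * T w m - a * x ^ j|
        ≤ |∑ w ∈ W, (c w : ℝ) * T w m - aeval x Pc| + |aeval x Pc - a * x ^ j| := abs_sub_le _ _ _
      _ ≤ H * (C2 * x ^ J) + H * S * x ^ (j + 1) := add_le_add q1 q2
      _ ≤ H * (C2 * x ^ (j + 1)) + H * S * x ^ (j + 1) := by gcongr
      _ = (H * x) * ((C2 + S) * x ^ j) := by ring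
      _ ≤ κ * ((C2 + S) * x ^ j) := by gcongr
      _ ≤ 1 / (2 * D) * x ^ j := by
          rw [← mul_assoc]
          refine mul_le_mul_of_nonneg_right ?_ hxj.le
          rw [hκ, div_mul_eq_mul_div, one_mul, div_le_div_iff₀ (by positivity) (by positivity)]
          nlinarith
  refine ⟨if 0 ≤ a then 1 else -1, by split_ifs <;> simp, fun H hH m hm hHm => ?_⟩
  have h1 := hfin H hH m hm hHm
  have hm1' : 1 ≤ m := (le_max_right _ _).trans hm
  have hmr : (1 : ℝ) ≤ m := by exact_mod_cast hm1'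
  have hm0 : (0 : ℝ) < m := by linarith
  have hj1 : (0 : ℝ) < ((m : ℝ) ^ j)⁻¹ := by positivity
  have hJj : ((m : ℝ) ^ J)⁻¹ ≤ ((m : ℝ) ^ j)⁻¹ :=
    inv_anti₀ (by positivity) (pow_le_pow_right₀ hmr hjJ.le)
  rw [abs_le] at h1
  have h2 : 1 / (2 * (D : ℝ)) * ((m : ℝ) ^ j)⁻¹ + 1 / (2 * (D : ℝ)) * ((m : ℝ) ^ j)⁻¹ ≤
      |a| * ((m : ℝ) ^ j)⁻¹ := by
    rw [← add_mul]
    refine mul_le_mul_of_nonneg_right ?_ hj1.le
    calc 1 / (2 * (D : ℝ)) + 1 / (2 * (D : ℝ)) = 1 / D := by field_simp; norm_num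
      _ ≤ _ := ha1
  have h3 : κ * ((m : ℝ) ^ J)⁻¹ ≤ 1 / (2 * (D : ℝ)) * ((m : ℝ) ^ j)⁻¹ := by
    gcongr
  split_ifs with h4
  · rw [abs_of_nonneg h4] at h2
    linarith [h1.1]
  · rw [abs_of_neg (not_le.1 h4)] at h2
    linarith [h1.2]

end Pool.Agent.U623.HF
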