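import Pool.Agent.U623.HF.Real
import Pool.Agent.TH456.TM.Inst

/-! # Multiple zeta values of words with a common last part, real coefficients -/

set_option autoImplicit false

open Filter Topology

namespace Pool.Agent.U623.HF

open Pool.Agent.H447R2.MZ

/-- **Words with a common last part, real coefficients.** -/
theorem mainR (U : Finset (List ℕ)) (hU : ∀ u ∈ U, Adm u) :
    ∃ (q : ℕ → List ℕ → ℚ) (K : ℝ) (J : ℕ), 0 < K ∧ ∀ c : List ℕ → ℝ, (∃ u ∈ U, c u ≠ 0) →
      ∃ j < J, ∑ u ∈ U, c u * (q j u : ℝ) ≠ 0 ∧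
      ∀ H : ℝ, (∀ u ∈ U, |c u| ≤ H) →
      ∀ (a : ℕ) (s : List ℕ), 1 ≤ a → (∀ x ∈ s, 1 ≤ x) → (∀ u ∈ U, Adm (u ++ a :: s)) →
        K * H ≤ |∑ u ∈ U, c u * (q j u : ℝ)| * (s.length + 1) →
        0 < val ((a + (J + 1)) :: s) ∧
        |∑ u ∈ U, c u * (q j u : ℝ)| / 2 * val ((a + (J + 1)) :: s) ≤
          |∑ u ∈ U, c u * val (u ++ a :: s)| := by
  classical
  obtain ⟨q, K0, J, m0, hK0, h⟩ := lowerR (U.image List.reverse) (by
    intro w hw
    obtain ⟨u, hu, rfl⟩ := Finset.mem_image.1 hw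
    unfold RA
    rw [List.reverse_reverse]
    exact hU u hu)
  obtain ⟨S, hS⟩ : ∃ S : ℝ, S = ∑ j ∈ Finset.range J, ∑ u ∈ U, |((q j u.reverse : ℚ) : ℝ)| := ⟨_, rfl⟩
  have hS0 : 0 ≤ S := by
    rw [hS]
    exact Finset.sum_nonneg fun _ _ => Finset.sum_nonneg fun _ _ => abs_nonneg _
  refine ⟨fun j u => q j u.reverse, K0 + S * (m0 + 1), J, by positivity, fun c hc => ?_⟩
  have hsum : ∀ f : List ℕ → ℝ, ∑ w ∈ U.image List.reverse, c w.reverse * f w =
      ∑ u ∈ U, c u * f u.reverse := by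
    intro f
    rw [Finset.sum_image fun x _ y _ hxy => List.reverse_injective hxy]
    refine Finset.sum_congr rfl fun u _ => ?_
    rw [List.reverse_reverse]
  obtain ⟨j, hjJ, hj0, ε, hε, hb⟩ := h (fun w => c w.reverse) (by
    obtain ⟨u, hu, hcu⟩ := hc
    exact ⟨u.reverse, Finset.mem_image_of_mem _ hu, by rw [List.reverse_reverse]; exact hcu⟩)
  rw [hsum fun w => ((q j w : ℚ) : ℝ)] at hj0
  simp only [hsum fun w => ((q j w : ℚ) : ℝ)] at hb
  refine ⟨j, hjJ, hj0, fun H hH a s ha hs hadm hlen => ?_⟩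
  simp only at hlen ⊢
  obtain ⟨A, hA⟩ : ∃ A : ℝ, A = ∑ u ∈ U, c u * ((q j u.reverse : ℚ) : ℝ) := ⟨_, rfl⟩
  rw [← hA] at hj0 hb hlen ⊢
  have hA0 : 0 < |A| := abs_pos.2 hj0
  have hH0 : 0 < H := by
    obtain ⟨u, hu, hcu⟩ := hc
    exact (abs_pos.2 hcu).trans_le (hH u hu)
  have hAS : |A| ≤ H * S := by
    calc |A| ≤ ∑ u ∈ U, |c u * ((q j u.reverse : ℚ) : ℝ)| := by
          rw [hA]; exact Finset.abs_sum_le_sum_abs _ _
      _ ≤ ∑ u ∈ U, H * |((q j u.reverse : ℚ) : ℝ)| := by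
          refine Finset.sum_le_sum fun u hu => ?_
          rw [abs_mul]
          exact mul_le_mul_of_nonneg_right (hH u hu) (abs_nonneg _)
      _ = H * ∑ u ∈ U, |((q j u.reverse : ℚ) : ℝ)| := by rw [Finset.mul_sum]
      _ ≤ H * S := by
          refine mul_le_mul_of_nonneg_left ?_ hH0.le
          rw [hS]
          exact Finset.single_le_sum (f := fun j => ∑ u ∈ U, |((q j u.reverse : ℚ) : ℝ)|)
            (fun _ _ => Finset.sum_nonneg fun _ _ => abs_nonneg _) (Finset.mem_range.2 hjJ)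
  have hS1 : 0 < S := by
    by_contra hcon
    have : S = 0 := le_antisymm (not_lt.1 hcon) hS0
    rw [this, mul_zero] at hAS
    linarith
  have hL0 : (0 : ℝ) < (s.length : ℝ) + 1 := by positivity
  have hlen1 : (m0 : ℝ) + 1 ≤ (s.length : ℝ) + 1 := by
    have h1 : S * (m0 + 1) * H ≤ (H * S) * (s.length + 1) := by
      calc S * (m0 + 1) * H ≤ (K0 + S * (m0 + 1)) * H := by nlinarith
        _ ≤ |A| * (s.length + 1) := hlen
        _ ≤ _ := mul_le_mul_of_nonneg_right hAS hL0.le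
    have h2 : 0 < H * S := by positivity
    have h3 : (H * S) * ((m0 : ℝ) + 1) ≤ (H * S) * ((s.length : ℝ) + 1) := by linarith
    exact le_of_mul_le_mul_left h3 h2
  have hlen2 : K0 * H ≤ |A| * (s.length + 1) := by
    refine le_trans ?_ hlen
    nlinarith [mul_nonneg hS0 hH0.le, m0.cast_nonneg (α := ℝ), mul_nonneg (mul_nonneg hS0 hH0.le)
      (m0.cast_nonneg (α := ℝ))]
  have hadm' : Adm ((a + (J + 1)) :: s) := by
    refine ⟨fun x hx => ?_, fun x t hx => ?_⟩
    · rw [List.mem_cons] at hx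
      rcases hx with rfl | hx
      · omega
      · exact hs x hx
    · rw [List.cons.injEq] at hx
      omega
  have hpos : 0 < val ((a + (J + 1)) :: s) :=
    lt_of_lt_of_le (H_pos _ _ le_rfl) (H_le_val _ hadm' _)
  refine ⟨hpos, ?_⟩
  have hb' := hb H (by
    intro w hw
    obtain ⟨u, hu, rfl⟩ := Finset.mem_image.1 hw
    rw [List.reverse_reverse]
    exact hH u hu)
  -- the two sums
  obtain ⟨g, hg⟩ : ∃ g : ℕ → ℝ, g = fun m => (((m + 1 : ℕ) : ℝ) ^ a)⁻¹ * Pool.Agent.H447R2.MZ.H s m := ⟨_, rfl⟩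
  have hg0 : ∀ m, 0 ≤ g m := fun m => by
    rw [hg]
    exact mul_nonneg (by positivity) (H_nonneg s m)
  have hS' : HasSum (fun m => ε * ((∑ u ∈ U, c u * T u.reverse (m + 1)) * g m))
      (ε * ∑ u ∈ U, c u * val (u ++ a :: s)) := by
    refine HasSum.mul_left ε ?_
    have h1 : ∀ u ∈ U, HasSum (fun m => c u * (T u.reverse (m + 1) * g m))
        (c u * val (u ++ a :: s)) := by
      intro u hu
      have h2 := hs_sum u.reverse a s (by rw [List.reverse_reverse]; exact hadm u hu)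
      rw [List.reverse_reverse] at h2
      rw [hg]
      exact h2.mul_left _
    have h3 := hasSum_sum h1
    have h4 : (fun m => ∑ u ∈ U, c u * (T u.reverse (m + 1) * g m)) =
        fun m => (∑ u ∈ U, c u * T u.reverse (m + 1)) * g m := by
      funext m
      rw [Finset.sum_mul]
      exact Finset.sum_congr rfl fun u _ => by ring
    rw [h4] at h3
    exact h3
  have hR : HasSum (fun m => |A| / 2 * (((((m + 1 : ℕ) : ℝ) ^ (a + (J + 1)))⁻¹) *
      Pool.Agent.H447R2.MZ.H s m)) (|A| / 2 * val ((a + (J + 1)) :: s)) :=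
    (base_sum _ s hadm').mul_left _
  have hfin : |A| / 2 * val ((a + (J + 1)) :: s) ≤ ε * ∑ u ∈ U, c u * val (u ++ a :: s) := by
    refine hasSum_le (fun m => ?_) hR hS'
    rcases lt_or_ge m s.length with hm | hm
    · rw [hg]
      simp only
      rw [H_zero s m hm]
      simp
    · have hm1 : (s.length : ℝ) ≤ m := by exact_mod_cast hm
      have h1 := hb' (m + 1) (by
        have : (m0 : ℝ) ≤ ((m + 1 : ℕ) : ℝ) := by push_cast; linarith
        exact_mod_cast this) (by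
        push_cast
        have h5 : (s.length : ℝ) + 1 ≤ (m : ℝ) + 1 := by linarith
        exact hlen2.trans (mul_le_mul_of_nonneg_left h5 hA0.le))
      rw [hsum fun w => T w (m + 1)] at h1
      have hm2 : (1 : ℝ) ≤ ((m + 1 : ℕ) : ℝ) := by
        push_cast; have : (0 : ℝ) ≤ m := m.cast_nonneg; linarith
      calc |A| / 2 * (((((m + 1 : ℕ) : ℝ) ^ (a + (J + 1)))⁻¹) * Pool.Agent.H447R2.MZ.H s m)
          ≤ |A| / 2 * (((((m + 1 : ℕ) : ℝ) ^ J)⁻¹ * (((m + 1 : ℕ) : ℝ) ^ a)⁻¹) *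
              Pool.Agent.H447R2.MZ.H s m) := by
            have h6 : (((m + 1 : ℕ) : ℝ) ^ (a + (J + 1)))⁻¹ ≤
                (((m + 1 : ℕ) : ℝ) ^ J)⁻¹ * (((m + 1 : ℕ) : ℝ) ^ a)⁻¹ := by
              rw [← mul_inv, ← pow_add]
              exact inv_anti₀ (by positivity) (pow_le_pow_right₀ hm2 (by omega))
            exact mul_le_mul_of_nonneg_left (mul_le_mul_of_nonneg_right h6 (H_nonneg s m))
              (by positivity)
        _ = (|A| / 2 * (((m + 1 : ℕ) : ℝ) ^ J)⁻¹) * g m := by rw [hg]; ring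
        _ ≤ (ε * ∑ u ∈ U, c u * T u.reverse (m + 1)) * g m :=
            mul_le_mul_of_nonneg_right h1 (hg0 m)
        _ = _ := by ring
  refine hfin.trans ?_
  rcases hε with rfl | rfl
  · rw [one_mul]; exact le_abs_self _
  · rw [neg_one_mul]; exact neg_le_abs _

end Pool.Agent.U623.HF
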