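import Pool.Agent.H447R2.MZ.Tup

/-! # Tails of multiple zeta values -/

set_option autoImplicit false

open Filter Topology

namespace Pool.Agent.U623.HF

open Pool.Agent.H447R2.MZ

/-- the sum of the `f n`, `n > m` -/
noncomputable def tl (f : ℕ → ℝ) (m : ℕ) : ℝ := ∑' n, f (n + (m + 1))

/-- the tail sum over `n_1 > … > n_t > m` of the word whose first letter belongs to the smallest
variable -/
noncomputable def T : List ℕ → ℕ → ℝ
  | [] => fun _ => 1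
  | a :: w => tl (fun n => ((n : ℝ) ^ a)⁻¹ * T w n)

lemma T_nil (m : ℕ) : T [] m = 1 := by rw [T]
lemma T_cons (a : ℕ) (w : List ℕ) : T (a :: w) = tl (fun n => ((n : ℝ) ^ a)⁻¹ * T w n) := by rw [T]

/-- admissible, the first letter belongs to the smallest variable -/
def RA (w : List ℕ) : Prop := Adm w.reverse

lemma ra_tail {a : ℕ} {w : List ℕ} (h : RA (a :: w)) : RA w := by
  unfold RA at *
  rw [List.reverse_cons] at h
  obtain ⟨h1, h2⟩ := h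
  refine ⟨fun x hx => h1 x (by simp [hx]), fun b t hb => ?_⟩
  exact h2 b (t ++ [a]) (by rw [hb]; rfl)

lemma ra_one {a : ℕ} {w : List ℕ} (h : RA (a :: w)) : 1 ≤ a := h.1 a (by simp)

lemma ra_two {a : ℕ} (h : RA [a]) : 2 ≤ a := h.2 a [] (by simp)

lemma ra_tail' {w : List ℕ} (h : RA w) : RA w.tail := by
  cases w with
  | nil => exact h
  | cons a w => exact ra_tail h

lemma sq_sum (m k : ℕ) : ∑ i ∈ Finset.range k, (((i + (m + 1) : ℕ) : ℝ) ^ 2)⁻¹ ≤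
    2 / ((m : ℝ) + 1) - 2 / ((m : ℝ) + k + 1) := by
  induction k with
  | zero => simp
  | succ k ih =>
    rw [Finset.sum_range_succ]
    have hx : (0 : ℝ) < (m : ℝ) + k + 1 := by positivity
    have h1 : (((k + (m + 1) : ℕ) : ℝ) ^ 2)⁻¹ ≤
        2 / ((m : ℝ) + k + 1) - 2 / ((m : ℝ) + ((k + 1 : ℕ) : ℝ) + 1) := by
      have e : ((k + (m + 1) : ℕ) : ℝ) = (m : ℝ) + k + 1 := by push_cast; ring
      rw [e]
      push_cast
      rw [div_sub_div _ _ hx.ne' (by positivity), inv_eq_one_div, div_le_div_iff₀ (by positivity)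
        (by positivity)]
      nlinarith
    linarith

lemma tl_bound {f : ℕ → ℝ} {C : ℝ} {m : ℕ} (hC : 0 ≤ C)
    (h : ∀ n, m + 1 ≤ n → 0 ≤ f n ∧ f n ≤ C * ((n : ℝ) ^ 2)⁻¹) :
    Summable (fun n => f (n + (m + 1))) ∧ 0 ≤ tl f m ∧ tl f m ≤ 2 * C * ((m : ℝ) + 1)⁻¹ := by
  have h0 : ∀ n, 0 ≤ f (n + (m + 1)) := fun n => (h _ (by omega)).1
  have h1 : ∀ k, ∑ i ∈ Finset.range k, f (i + (m + 1)) ≤ 2 * C * ((m : ℝ) + 1)⁻¹ := by
    intro k
    calc _ ≤ ∑ i ∈ Finset.range k, C * (((i + (m + 1) : ℕ) : ℝ) ^ 2)⁻¹ :=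
          Finset.sum_le_sum fun i _ => (h _ (by omega)).2
      _ = C * ∑ i ∈ Finset.range k, (((i + (m + 1) : ℕ) : ℝ) ^ 2)⁻¹ := by rw [Finset.mul_sum]
      _ ≤ C * (2 / ((m : ℝ) + 1) - 2 / ((m : ℝ) + k + 1)) := by
          gcongr
          exact sq_sum m k
      _ ≤ C * (2 / ((m : ℝ) + 1)) := by
          gcongr
          have : (0 : ℝ) ≤ 2 / ((m : ℝ) + k + 1) := by positivity
          linarith
      _ = _ := by ring
  refine ⟨summable_of_sum_range_le h0 h1, tsum_nonneg h0, ?_⟩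
  exact Real.tsum_le_of_sum_range_le h0 h1

lemma tl_succ {f : ℕ → ℝ} {m : ℕ} (h : Summable (fun n => f (n + (m + 1)))) :
    tl f m = f (m + 1) + tl f (m + 1) := by
  unfold tl
  rw [h.tsum_eq_zero_add]
  simp only [zero_add]
  congr 1
  refine tsum_congr fun n => ?_
  congr 1
  omega

lemma Tb : ∀ w : List ℕ, RA w → (∀ m, 0 ≤ T w m) ∧ (∃ C : ℝ, 0 ≤ C ∧ ∀ m, T w m ≤ C) ∧
    (w ≠ [] → ∃ C : ℝ, 0 ≤ C ∧ ∀ m, T w m ≤ C * ((m : ℝ) + 1)⁻¹) ∧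
    ∀ a, RA (a :: w) → ∃ C : ℝ, 0 ≤ C ∧ ∀ n : ℕ, 1 ≤ n → 0 ≤ ((n : ℝ) ^ a)⁻¹ * T w n ∧
      ((n : ℝ) ^ a)⁻¹ * T w n ≤ C * ((n : ℝ) ^ 2)⁻¹ := by
  intro w
  induction w with
  | nil =>
    intro _
    refine ⟨fun m => by rw [T_nil]; exact zero_le_one, ⟨1, zero_le_one, fun m => by rw [T_nil]⟩,
      fun h => absurd rfl h, fun a ha => ⟨1, zero_le_one, fun n hn => ?_⟩⟩
    have h2 := ra_two ha
    have hn1 : (1 : ℝ) ≤ n := by exact_mod_cast hn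
    rw [T_nil, mul_one, one_mul]
    refine ⟨by positivity, ?_⟩
    exact inv_anti₀ (by positivity) (pow_le_pow_right₀ hn1 h2)
  | cons b w ih =>
    intro hb
    obtain ⟨i1, -, -, i4⟩ := ih (ra_tail hb)
    obtain ⟨C, hC, h⟩ := i4 b hb
    have h1 : ∀ m, 0 ≤ T (b :: w) m ∧ T (b :: w) m ≤ 2 * C * ((m : ℝ) + 1)⁻¹ := by
      intro m
      rw [T_cons]
      exact (tl_bound hC fun n hn => h n (by omega)).2
    refine ⟨fun m => (h1 m).1, ⟨2 * C, by positivity, fun m => ?_⟩, fun _ => ⟨2 * C, by positivity,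
      fun m => (h1 m).2⟩, fun a ha => ⟨2 * C, by positivity, fun n hn => ?_⟩⟩
    · refine (h1 m).2.trans (mul_le_of_le_one_right (by positivity) ?_)
      exact inv_le_one_of_one_le₀ (by have : (0 : ℝ) ≤ m := m.cast_nonneg; linarith)
    · have hn1 : (1 : ℝ) ≤ n := by exact_mod_cast hn
      have ha1 := ra_one ha
      have h2 := (h1 n).1
      refine ⟨mul_nonneg (by positivity) h2, ?_⟩
      calc ((n : ℝ) ^ a)⁻¹ * T (b :: w) n ≤ ((n : ℝ) ^ 1)⁻¹ * (2 * C * ((n : ℝ) + 1)⁻¹) := by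
            apply mul_le_mul _ (h1 n).2 h2 (by positivity)
            exact inv_anti₀ (by positivity) (pow_le_pow_right₀ hn1 ha1)
        _ ≤ ((n : ℝ) ^ 1)⁻¹ * (2 * C * (n : ℝ)⁻¹) := by
            gcongr
            linarith
        _ = 2 * C * ((n : ℝ) ^ 2)⁻¹ := by
            rw [pow_one, sq, mul_inv]; ring

lemma T_nonneg {w : List ℕ} (h : RA w) (m : ℕ) : 0 ≤ T w m := (Tb w h).1 m

lemma fb {a : ℕ} {w : List ℕ} (h : RA (a :: w)) : ∃ C : ℝ, 0 ≤ C ∧ ∀ n : ℕ, 1 ≤ n →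
    0 ≤ ((n : ℝ) ^ a)⁻¹ * T w n ∧ ((n : ℝ) ^ a)⁻¹ * T w n ≤ C * ((n : ℝ) ^ 2)⁻¹ :=
  (Tb w (ra_tail h)).2.2.2 a h

lemma f_summable {a : ℕ} {w : List ℕ} (h : RA (a :: w)) (m : ℕ) :
    Summable (fun n => (((n + (m + 1) : ℕ) : ℝ) ^ a)⁻¹ * T w (n + (m + 1))) := by
  obtain ⟨C, hC, h1⟩ := fb h
  exact (tl_bound (f := fun n => ((n : ℝ) ^ a)⁻¹ * T w n) (m := m) hC
    fun n hn => h1 n (by omega)).1

lemma T_succ {a : ℕ} {w : List ℕ} (h : RA (a :: w)) (m : ℕ) :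
    T (a :: w) m = (((m + 1 : ℕ) : ℝ) ^ a)⁻¹ * T w (m + 1) + T (a :: w) (m + 1) := by
  rw [T_cons]
  exact tl_succ (f_summable h m)

end Pool.Agent.U623.HF
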